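import Mathlib

/-!
Lifts of orientation preserving circle homeomorphisms. Denjoy's theorem in the form: if the
distortion is controlled and there are no periodic points, then intervals of a given length have
iterates of length bounded below.
-/

namespace Pool.Agent.Lib.MP_1e8d1a_an.Circ

open Function

/-- Lift of an orientation preserving circle homeomorphism. -/
structure CircLift (g : ℝ → ℝ) : Prop where
  mono : StrictMono g
  cont : Continuous g
  per : ∀ x, g (x + 1) = g x + 1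

namespace CircLift

variable {g : ℝ → ℝ} (hg : CircLift g)
include hg

theorem add_nat (x : ℝ) (m : ℕ) : g (x + m) = g x + m := by
  induction m with
  | zero => simp
  | succ m ih =>
    push_cast
    rw [← add_assoc, hg.per, ih, add_assoc]

theorem add_int (x : ℝ) (m : ℤ) : g (x + m) = g x + m := by
  rcases Int.eq_nat_or_neg m with ⟨n, rfl | rfl⟩
  · simpa using hg.add_nat x n
  · have := hg.add_nat (x + ((-(n : ℤ) : ℤ) : ℝ)) n
    push_cast at this ⊢
    have h2 : x + -(n : ℝ) + n = x := by ring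
    rw [h2] at this
    rw [this]; ring

theorem sub_int (x : ℝ) (m : ℤ) : g (x - m) = g x - m := by
  have := hg.add_int x (-m)
  push_cast at this
  simpa [sub_eq_add_neg] using this

theorem comp {h : ℝ → ℝ} (hh : CircLift h) : CircLift (g ∘ h) where
  mono := hg.mono.comp hh.mono
  cont := hg.cont.comp hh.cont
  per x := by simp [hh.per, hg.per]

theorem iter (n : ℕ) : CircLift (g^[n]) := by
  induction n with
  | zero => exact ⟨strictMono_id, continuous_id, fun x => rfl⟩
  | succ n ih =>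
    rw [Function.iterate_succ]
    exact ih.comp hg

theorem add_const (c : ℝ) : CircLift (fun x => g x + c) where
  mono := fun x y h => by simpa using hg.mono h
  cont := hg.cont.add continuous_const
  per x := by simp only [hg.per]; ring

theorem surj : Surjective g := by
  intro y
  obtain ⟨n, hn⟩ := exists_nat_gt (y - g 0)
  obtain ⟨m, hm⟩ := exists_nat_gt (g 0 - y)
  have h1 : g (n : ℝ) = g 0 + n := by simpa using hg.add_nat 0 n
  have h2 : g (-(m : ℝ)) = g 0 - m := by
    have := hg.sub_int 0 m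
    simpa using this
  have h3 : y ∈ Set.Icc (g (-(m : ℝ))) (g (n : ℝ)) := ⟨by rw [h2]; linarith, by rw [h1]; linarith⟩
  have h4 : (-(m : ℝ)) ≤ n := by
    have : (0 : ℝ) ≤ m := Nat.cast_nonneg m
    have : (0 : ℝ) ≤ n := Nat.cast_nonneg n
    linarith
  obtain ⟨x, -, hx⟩ := intermediate_value_Icc h4 hg.cont.continuousOn h3
  exact ⟨x, hx⟩

/-- the inverse homeomorphism -/
theorem exists_inv : ∃ g' : ℝ → ℝ, CircLift g' ∧ (∀ x, g (g' x) = x) ∧ ∀ x, g' (g x) = x := by
  let e : ℝ ≃o ℝ := hg.mono.orderIsoOfSurjective g hg.surj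
  have he : ∀ x, e x = g x := fun x => rfl
  have h1 : ∀ x, g (e.symm x) = x := fun x => e.apply_symm_apply x
  have h2 : ∀ x, e.symm (g x) = x := fun x => e.symm_apply_apply x
  refine ⟨e.symm, ⟨e.symm.strictMono, e.symm.continuous, fun x => ?_⟩, h1, h2⟩
  apply hg.mono.injective
  rw [h1, hg.per, h1]

theorem sub_le_one {x y : ℝ} (h : y ≤ x + 1) : g y - g x ≤ 1 := by
  have := hg.mono.monotone h
  rw [hg.per] at this
  linarith

end CircLift

/-- distortion control -/
def Dist (g : ℝ → ℝ) (C : ℝ) : Prop :=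
  ∀ u v a b a' b' : ℝ, u ≤ a → a < b → b ≤ v → u ≤ a' → a' < b' → b' ≤ v →
    (g b - g a) * (b' - a') ≤ Real.exp (C * (v - u)) * ((g b' - g a') * (b - a))

theorem dist_iter {g : ℝ → ℝ} (hg : CircLift g) {C : ℝ} (hC : Dist g C) (n : ℕ)
    (u v a b a' b' : ℝ) (h1 : u ≤ a) (h2 : a < b) (h3 : b ≤ v) (h4 : u ≤ a') (h5 : a' < b')
    (h6 : b' ≤ v) :
    (g^[n] b - g^[n] a) * (b' - a') ≤
      Real.exp (C * ∑ k ∈ Finset.range n, (g^[k] v - g^[k] u)) *
        ((g^[n] b' - g^[n] a') * (b - a)) := by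
  induction n with
  | zero => simp [mul_comm]
  | succ n ih =>
    have hm := (hg.iter n).mono
    have k1 := hC (g^[n] u) (g^[n] v) (g^[n] a) (g^[n] b) (g^[n] a') (g^[n] b')
      (hm.monotone h1) (hm h2) (hm.monotone h3) (hm.monotone h4) (hm h5) (hm.monotone h6)
    rw [Finset.sum_range_succ, mul_add, Real.exp_add]
    simp only [Function.iterate_succ_apply']
    set E1 := Real.exp (C * ∑ k ∈ Finset.range n, (g^[k] v - g^[k] u)) with hE1
    set E2 := Real.exp (C * (g^[n] v - g^[n] u)) with hE2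
    have hE1p : 0 < E1 := Real.exp_pos _
    have hE2p : 0 < E2 := Real.exp_pos _
    have p1 : 0 < g^[n] b' - g^[n] a' := sub_pos.2 (hm h5)
    have p2 : 0 < g (g^[n] b') - g (g^[n] a') := sub_pos.2 (hg.mono (hm h5))
    have p3 : 0 < b' - a' := sub_pos.2 h5
    have p4 : 0 < b - a := sub_pos.2 h2
    refine le_of_mul_le_mul_right ?_ p1
    calc (g (g^[n] b) - g (g^[n] a)) * (b' - a') * (g^[n] b' - g^[n] a')
        = ((g (g^[n] b) - g (g^[n] a)) * (g^[n] b' - g^[n] a')) * (b' - a') := by ring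
      _ ≤ (E2 * ((g (g^[n] b') - g (g^[n] a')) * (g^[n] b - g^[n] a))) * (b' - a') :=
          mul_le_mul_of_nonneg_right k1 p3.le
      _ = E2 * (g (g^[n] b') - g (g^[n] a')) * ((g^[n] b - g^[n] a) * (b' - a')) := by ring
      _ ≤ E2 * (g (g^[n] b') - g (g^[n] a')) * (E1 * ((g^[n] b' - g^[n] a') * (b - a))) :=
          mul_le_mul_of_nonneg_left ih (by positivity)
      _ = E1 * E2 * ((g (g^[n] b') - g (g^[n] a')) * (b - a)) * (g^[n] b' - g^[n] a') := by ring

/-- wandering interval -/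
def Wand (g : ℝ → ℝ) (a b : ℝ) : Prop :=
  ∀ n : ℕ, 1 ≤ n → ∀ m : ℤ, ∀ x, a < x → x < b → ¬ (a < g^[n] x + m ∧ g^[n] x + m < b)

/-- no periodic points -/
def NoPer (g : ℝ → ℝ) : Prop := ∀ n : ℕ, 1 ≤ n → ∀ m : ℤ, ∀ x, g^[n] x ≠ x + m

theorem exists_int_mem (a b y : ℝ) (h : a + 1 < b) : ∃ m : ℤ, a < y + m ∧ y + m < b := by
  refine ⟨⌊a - y⌋ + 1, ?_, ?_⟩
  · push_cast
    linarith [Int.lt_floor_add_one (a - y)]
  · push_cast
    linarith [Int.floor_le (a - y)]

theorem Wand.le {g : ℝ → ℝ} {a b : ℝ} (h : Wand g a b) : b ≤ a + 1 := by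
  by_contra hcon
  push Not at hcon
  obtain ⟨m, h1, h2⟩ := exists_int_mem a b (g ((a + b) / 2)) hcon
  exact h 1 le_rfl m ((a + b) / 2) (by linarith) (by linarith) ⟨by simpa using h1, by simpa using h2⟩

theorem wand_sum {g : ℝ → ℝ} (hg : CircLift g) {a b : ℝ} (hab : a < b) (hw : Wand g a b) (n : ℕ) :
    ∑ k ∈ Finset.range n, (g^[k] b - g^[k] a) ≤ 2 := by
  have hle := hw.le
  let I : ℕ → Set ℝ := fun k => Set.Ioo (g^[k] a - ⌊g^[k] a⌋) (g^[k] b - ⌊g^[k] a⌋)
  have hI : ∀ k, I k ⊆ Set.Ioo 0 2 := by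
    intro k x hx
    have h1 : g^[k] b - g^[k] a ≤ 1 := (hg.iter k).sub_le_one hle
    have h2 := Int.floor_le (g^[k] a)
    have h3 := Int.lt_floor_add_one (g^[k] a)
    exact ⟨by linarith [hx.1], by linarith [hx.2]⟩
  have hdis : ∀ k l : ℕ, k < l → Disjoint (I k) (I l) := by
    intro k l hkl
    rw [Set.disjoint_left]
    rintro y hy1 hy2
    obtain ⟨x, hx⟩ := (hg.iter k).surj (y + ⌊g^[k] a⌋)
    obtain ⟨x', hx'⟩ := (hg.iter l).surj (y + ⌊g^[l] a⌋)
    have hmk := (hg.iter k).mono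
    have hml := (hg.iter l).mono
    have a1 : a < x := hmk.lt_iff_lt.1 (by rw [hx]; linarith [hy1.1])
    have a2 : x < b := hmk.lt_iff_lt.1 (by rw [hx]; linarith [hy1.2])
    have a3 : a < x' := hml.lt_iff_lt.1 (by rw [hx']; linarith [hy2.1])
    have a4 : x' < b := hml.lt_iff_lt.1 (by rw [hx']; linarith [hy2.2])
    have e1 : g^[k] (g^[l - k] x' + ((⌊g^[k] a⌋ - ⌊g^[l] a⌋ : ℤ) : ℝ)) = g^[k] x := by
      rw [(hg.iter k).add_int, ← Function.iterate_add_apply, show k + (l - k) = l by omega, hx', hx]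
      push_cast
      ring
    have e2 := hmk.injective e1
    exact hw (l - k) (by omega) _ x' a3 a4 ⟨by rw [e2]; exact a1, by rw [e2]; exact a2⟩
  have hpd : Set.PairwiseDisjoint (↑(Finset.range n)) I := by
    intro k _ l _ hkl
    rcases lt_or_gt_of_ne hkl with h | h
    · exact hdis k l h
    · exact (hdis l k h).symm
  have h1 : MeasureTheory.volume (⋃ k ∈ Finset.range n, I k) =
      ∑ k ∈ Finset.range n, MeasureTheory.volume (I k) :=
    MeasureTheory.measure_biUnion_finset hpd fun k _ => measurableSet_Ioo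
  have h2 : MeasureTheory.volume (⋃ k ∈ Finset.range n, I k) ≤
      MeasureTheory.volume (Set.Ioo (0 : ℝ) 2) :=
    MeasureTheory.measure_mono (Set.iUnion₂_subset fun k _ => hI k)
  rw [h1, Real.volume_Ioo] at h2
  have h3 : ∀ k, MeasureTheory.volume (I k) = ENNReal.ofReal (g^[k] b - g^[k] a) := by
    intro k
    simp only [I, Real.volume_Ioo]
    congr 1
    ring
  simp only [h3] at h2
  rw [← ENNReal.ofReal_sum_of_nonneg (fun k _ => sub_nonneg.2 ((hg.iter k).mono.monotone hab.le))]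
    at h2
  have h4 := (ENNReal.ofReal_le_ofReal_iff (by norm_num)).1 h2
  linarith

/-- Schwartz' extension argument. -/
theorem wand_extend {g : ℝ → ℝ} (hg : CircLift g) {C : ℝ} (hC0 : 0 ≤ C) (hC : Dist g C) {a b : ℝ}
    (hab : a < b) (hw : Wand g a b) (n : ℕ) :
    g^[n] (b + Real.exp (-(4 * C)) * (b - a)) - g^[n] b ≤ g^[n] b - g^[n] a := by
  induction n using Nat.strong_induction_on with
  | _ n ih =>
    set κ := Real.exp (-(4 * C)) with hκ
    have hκ0 : 0 < κ := Real.exp_pos _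
    have hba : 0 < b - a := sub_pos.2 hab
    set b' := b + κ * (b - a) with hb'
    have hbb' : b < b' := by rw [hb']; linarith [mul_pos hκ0 hba]
    have hs : ∑ k ∈ Finset.range n, (g^[k] b' - g^[k] a) ≤ 4 := by
      calc ∑ k ∈ Finset.range n, (g^[k] b' - g^[k] a)
          ≤ ∑ k ∈ Finset.range n, 2 * (g^[k] b - g^[k] a) := by
            refine Finset.sum_le_sum fun k hk => ?_
            have := ih k (Finset.mem_range.1 hk)
            linarith
        _ = 2 * ∑ k ∈ Finset.range n, (g^[k] b - g^[k] a) := by rw [Finset.mul_sum]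
        _ ≤ 4 := by linarith [wand_sum hg hab hw n]
    have h1 := dist_iter hg hC n a b' b b' a b hab.le hbb' le_rfl le_rfl hab hbb'.le
    have h2 : Real.exp (C * ∑ k ∈ Finset.range n, (g^[k] b' - g^[k] a)) ≤ Real.exp (4 * C) :=
      Real.exp_le_exp.2 (by nlinarith)
    have h3 : 0 < g^[n] b - g^[n] a := sub_pos.2 ((hg.iter n).mono hab)
    have h4 : b' - b = κ * (b - a) := by rw [hb']; ring
    rw [h4] at h1
    have h5 : Real.exp (4 * C) * κ = 1 := by
      rw [hκ, ← Real.exp_add]; simp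
    have h6 : (g^[n] b' - g^[n] b) * (b - a) ≤ (g^[n] b - g^[n] a) * (b - a) := by
      calc (g^[n] b' - g^[n] b) * (b - a) ≤
          Real.exp (C * ∑ k ∈ Finset.range n, (g^[k] b' - g^[k] a)) *
            ((g^[n] b - g^[n] a) * (κ * (b - a))) := h1
        _ ≤ Real.exp (4 * C) * ((g^[n] b - g^[n] a) * (κ * (b - a))) := by
            refine mul_le_mul_of_nonneg_right h2 ?_
            positivity
        _ = (Real.exp (4 * C) * κ) * ((g^[n] b - g^[n] a) * (b - a)) := by ring
        _ = (g^[n] b - g^[n] a) * (b - a) := by rw [h5, one_mul]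
    exact le_of_mul_le_mul_right h6 hba

theorem nper_sign {g : ℝ → ℝ} (hg : CircLift g) (h : ∀ x, g x ≠ x) :
    (∀ x, x < g x) ∨ (∀ x, g x < x) := by
  by_contra hcon
  push Not at hcon
  obtain ⟨⟨x, hx⟩, ⟨y, hy⟩⟩ := hcon
  have h1 : ∃ z ∈ Set.univ, (fun t => g t - t) z = 0 := by
    have := isPreconnected_univ (α := ℝ)
    have h2 := this.intermediate_value (Set.mem_univ x) (Set.mem_univ y)
      (f := fun t => g t - t) (hg.cont.sub continuous_id).continuousOn
    obtain ⟨z, hz1, hz2⟩ := h2 (show (0 : ℝ) ∈ Set.Icc (g x - x) (g y - y) from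
      ⟨by linarith, by linarith⟩)
    exact ⟨z, hz1, hz2⟩
  obtain ⟨z, -, hz⟩ := h1
  exact h z (by simpa [sub_eq_zero] using hz)

theorem escape_up {τ : ℝ → ℝ} (hτ : CircLift τ) (h : ∀ x, x < τ x) (x M : ℝ) :
    ∃ K : ℕ, M ≤ τ^[K] x := by
  by_contra hcon
  push Not at hcon
  have hmono : Monotone fun k : ℕ => τ^[k] x := by
    refine monotone_nat_of_le_succ fun k => ?_
    rw [Function.iterate_succ_apply']
    exact (h _).le
  have hbdd : BddAbove (Set.range fun k : ℕ => τ^[k] x) :=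
    ⟨M, by rintro _ ⟨k, rfl⟩; exact (hcon k).le⟩
  have h1 := tendsto_atTop_ciSup hmono hbdd
  set l := ⨆ k : ℕ, τ^[k] x
  have h2 : Filter.Tendsto (fun k : ℕ => τ^[k + 1] x) Filter.atTop (nhds l) :=
    h1.comp (Filter.tendsto_add_atTop_nat 1)
  have h3 : Filter.Tendsto (fun k : ℕ => τ^[k + 1] x) Filter.atTop (nhds (τ l)) := by
    have := (hτ.cont.tendsto l).comp h1
    refine this.congr fun k => ?_
    simp only [Function.comp_apply, Function.iterate_succ_apply']
  have h4 := tendsto_nhds_unique h2 h3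
  exact absurd h4 (h l).ne

theorem escape_down {τ : ℝ → ℝ} (hτ : CircLift τ) (h : ∀ x, τ x < x) (x M : ℝ) :
    ∃ K : ℕ, τ^[K] x ≤ M := by
  by_contra hcon
  push Not at hcon
  have hmono : Antitone fun k : ℕ => τ^[k] x := by
    refine antitone_nat_of_succ_le fun k => ?_
    rw [Function.iterate_succ_apply']
    exact (h _).le
  have hbdd : BddBelow (Set.range fun k : ℕ => τ^[k] x) :=
    ⟨M, by rintro _ ⟨k, rfl⟩; exact (hcon k).le⟩
  have h1 := tendsto_atTop_ciInf hmono hbdd
  set l := ⨅ k : ℕ, τ^[k] x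
  have h2 : Filter.Tendsto (fun k : ℕ => τ^[k + 1] x) Filter.atTop (nhds l) :=
    h1.comp (Filter.tendsto_add_atTop_nat 1)
  have h3 : Filter.Tendsto (fun k : ℕ => τ^[k + 1] x) Filter.atTop (nhds (τ l)) := by
    have := (hτ.cont.tendsto l).comp h1
    refine this.congr fun k => ?_
    simp only [Function.comp_apply, Function.iterate_succ_apply']
  have h4 := tendsto_nhds_unique h2 h3
  exact absurd h4 (h l).ne'

theorem pow_add_int {g : ℝ → ℝ} (hg : CircLift g) (n : ℕ) (m : ℤ) (k : ℕ) (y : ℝ) :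
    (fun x => g^[n] x + m)^[k] y = g^[n * k] y + k * m := by
  induction k with
  | zero => simp
  | succ k ih =>
    rw [Function.iterate_succ_apply', ih]
    have := (hg.iter n).add_int (g^[n * k] y) (k * m)
    push_cast at this ⊢
    rw [this, ← Function.iterate_add_apply, show n + n * k = n * (k + 1) by ring]
    ring

theorem lip_of_dist {g : ℝ → ℝ} (hg : CircLift g) {C : ℝ} (hC : Dist g C) {a b : ℝ} (hab : a < b)
    (hb : b ≤ a + 1) : g b - g a ≤ Real.exp C * (b - a) := by
  have := hC a (a + 1) a b a (a + 1) le_rfl hab hb le_rfl (by linarith) le_rfl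
  rw [hg.per] at this
  have e1 : a + 1 - a = 1 := by ring
  have e2 : g a + 1 - g a = 1 := by ring
  rw [e1, e2, mul_one, mul_one, one_mul] at this
  exact this

theorem lip_iter {g : ℝ → ℝ} (hg : CircLift g) {C : ℝ} (hC : Dist g C) {a b : ℝ} (hab : a < b)
    (hb : b ≤ a + 1) (n : ℕ) : g^[n] b - g^[n] a ≤ Real.exp C ^ n * (b - a) := by
  induction n with
  | zero => simp
  | succ n ih =>
    rw [Function.iterate_succ_apply', Function.iterate_succ_apply']
    have h1 := lip_of_dist hg hC ((hg.iter n).mono hab)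
      (by linarith [(hg.iter n).sub_le_one hb])
    calc g (g^[n] b) - g (g^[n] a) ≤ Real.exp C * (g^[n] b - g^[n] a) := h1
      _ ≤ Real.exp C * (Real.exp C ^ n * (b - a)) :=
          mul_le_mul_of_nonneg_left ih (Real.exp_pos _).le
      _ = Real.exp C ^ (n + 1) * (b - a) := by ring

/-- Iterates of a nonwandering interval do not get short. -/
theorem cover_bound {g : ℝ → ℝ} (hg : CircLift g) (hn : NoPer g) {C : ℝ} (hC : Dist g C)
    {a b : ℝ} (hab : a < b) (hb : b ≤ a + 1) (hnw : ¬ Wand g a b) :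
    ∃ δ > 0, ∀ N : ℕ, δ ≤ g^[N] b - g^[N] a := by
  unfold Wand at hnw
  push Not at hnw
  obtain ⟨n, hn1, m, x, hax, hxb, h1, h2⟩ := hnw
  set τ : ℝ → ℝ := fun y => g^[n] y + m with hτ
  have hτl : CircLift τ := (hg.iter n).add_const m
  have hne : ∀ y, τ y ≠ y := by
    intro y hy
    refine hn n hn1 (-m) y ?_
    push_cast
    simp only [hτ] at hy
    linarith
  -- the common estimate
  have key : ∀ K : ℕ, (∀ N : ℕ, (1 : ℝ) ≤ ∑ k ∈ Finset.range (K + 1),
      (g^[N] (τ^[k] b) - g^[N] (τ^[k] a))) → ∃ δ > 0, ∀ N : ℕ, δ ≤ g^[N] b - g^[N] a := by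
    intro K hK
    set Q : ℝ := ∑ k ∈ Finset.range (K + 1), Real.exp C ^ (n * k) with hQ
    have hQ0 : 0 < Q := Finset.sum_pos (fun k _ => by positivity) ⟨0, by simp⟩
    refine ⟨1 / Q, by positivity, fun N => ?_⟩
    rw [div_le_iff₀ hQ0]
    refine (hK N).trans ?_
    rw [hQ, Finset.mul_sum]
    refine Finset.sum_le_sum fun k _ => ?_
    have e1 : ∀ y, g^[N] (τ^[k] y) = g^[n * k] (g^[N] y) + k * m := by
      intro y
      rw [hτ, pow_add_int hg]
      have := (hg.iter N).add_int (g^[n * k] y) (k * m)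
      push_cast at this
      rw [this, ← Function.iterate_add_apply, ← Function.iterate_add_apply, add_comm N]
    rw [e1, e1]
    have h3 := lip_iter hg hC ((hg.iter N).mono hab) (by linarith [(hg.iter N).sub_le_one hb]) (n * k)
    linarith
  rcases nper_sign hτl hne with hup | hdown
  · obtain ⟨K, hK⟩ := escape_up hτl hup b (a + 1)
    have hov : τ a < b := (hτl.mono hax).trans h2
    refine key K fun N => ?_
    have hmN := (hg.iter N).mono
    have tele : ∀ K : ℕ, g^[N] (τ^[K] b) - g^[N] a ≤ ∑ k ∈ Finset.range (K + 1),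
        (g^[N] (τ^[k] b) - g^[N] (τ^[k] a)) := by
      intro K
      induction K with
      | zero => simp
      | succ K ih =>
        rw [Finset.sum_range_succ]
        have h3 : τ^[K + 1] a < τ^[K] b := by
          rw [Function.iterate_succ_apply]
          exact (hτl.iter K).mono hov
        have h4 := hmN h3
        linarith
    have h5 := hmN.monotone hK
    rw [(hg.iter N).per] at h5
    linarith [tele K]
  · obtain ⟨K, hK⟩ := escape_down hτl hdown a (b - 1)
    have hov : a < τ b := h1.trans (hτl.mono hxb)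
    refine key K fun N => ?_
    have hmN := (hg.iter N).mono
    have tele : ∀ K : ℕ, g^[N] b - g^[N] (τ^[K] a) ≤ ∑ k ∈ Finset.range (K + 1),
        (g^[N] (τ^[k] b) - g^[N] (τ^[k] a)) := by
      intro K
      induction K with
      | zero => simp
      | succ K ih =>
        rw [Finset.sum_range_succ]
        have h3 : τ^[K] a < τ^[K + 1] b := by
          rw [Function.iterate_succ_apply]
          exact (hτl.iter K).mono hov
        have h4 := hmN h3
        linarith
    have h5 := hmN.monotone hK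
    have h6 := (hg.iter N).per (b - 1)
    rw [sub_add_cancel] at h6
    linarith [tele K]

/-- **Denjoy**: no wandering intervals. -/
theorem no_wand {g : ℝ → ℝ} (hg : CircLift g) (hn : NoPer g) {C : ℝ} (hC0 : 0 ≤ C)
    (hC : Dist g C) {a b : ℝ} (hab : a < b) : ¬ Wand g a b := by
  intro hw
  set κ := Real.exp (-(4 * C)) with hκ
  have hκ0 : 0 < κ := Real.exp_pos _
  let B : ℕ → ℝ := fun i => a + (1 + κ) ^ i * (b - a)
  have hB0 : B 0 = b := by simp [B]
  have hBs : ∀ i, B (i + 1) = B i + κ * (B i - a) := by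
    intro i; simp only [B]; ring
  have hBa : ∀ i, a < B i := by
    intro i
    have : 0 < (1 + κ) ^ i * (b - a) := mul_pos (by positivity) (sub_pos.2 hab)
    simp only [B]; linarith
  have hex : ∃ i, ¬ Wand g a (B i) := by
    obtain ⟨i, hi⟩ := pow_unbounded_of_one_lt (1 / (b - a)) (show 1 < 1 + κ by linarith)
    refine ⟨i, fun h => ?_⟩
    have h1 := h.le
    rw [div_lt_iff₀ (sub_pos.2 hab)] at hi
    simp only [B] at h1
    linarith
  classical
  set i := Nat.find hex with hi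
  have h1 : ¬ Wand g a (B i) := Nat.find_spec hex
  have hi0 : i ≠ 0 := by
    intro h
    rw [h, hB0] at h1
    exact h1 hw
  obtain ⟨j, hj⟩ := Nat.exists_eq_succ_of_ne_zero hi0
  have h2 : Wand g a (B j) := by
    have := Nat.find_min hex (show j < i by omega)
    push Not at this
    exact this
  have h3 : ∀ N, g^[N] (B i) - g^[N] a ≤ 2 * (g^[N] (B j) - g^[N] a) := by
    intro N
    have := wand_extend hg hC0 hC (hBa j) h2 N
    rw [← hκ, ← hBs] at this
    rw [hj, Nat.succ_eq_add_one]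
    linarith
  have h4 : ∃ δ > 0, ∀ N : ℕ, δ ≤ g^[N] (B i) - g^[N] a := by
    by_cases hle : B i ≤ a + 1
    · exact cover_bound hg hn hC (hBa i) hle h1
    · refine ⟨1, one_pos, fun N => ?_⟩
      have := (hg.iter N).mono.monotone (not_le.1 hle).le
      rw [(hg.iter N).per] at this
      linarith
  obtain ⟨δ, hδ, h5⟩ := h4
  obtain ⟨n, hn'⟩ := exists_nat_gt (4 / δ)
  have h6 := wand_sum hg (hBa j) h2 n
  have h7 : ∑ k ∈ Finset.range n, δ / 2 ≤ ∑ k ∈ Finset.range n, (g^[k] (B j) - g^[k] a) :=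
    Finset.sum_le_sum fun k _ => by linarith [h5 k, h3 k]
  rw [Finset.sum_const, Finset.card_range, nsmul_eq_mul] at h7
  rw [div_lt_iff₀ hδ] at hn'
  linarith

/-- Long intervals stay long. -/
theorem long_stay {g : ℝ → ℝ} (hg : CircLift g) (hn : NoPer g) {C : ℝ} (hC0 : 0 ≤ C)
    (hC : Dist g C) {ε : ℝ} (hε : 0 < ε) :
    ∃ δ > 0, ∀ (N : ℕ) (x y : ℝ), ε ≤ y - x → δ ≤ g^[N] y - g^[N] x := by
  obtain ⟨M, hM⟩ := exists_nat_gt (2 / ε)
  have hM0 : (0 : ℝ) < M := lt_trans (by positivity) hM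
  have hM1 : 1 ≤ M := by exact_mod_cast Nat.one_le_iff_ne_zero.2 (by rintro rfl; simp at hM0)
  have hM1' : (1 : ℝ) ≤ M := by exact_mod_cast hM1
  have h1 : ∀ m : ℕ, ∃ δ > 0, ∀ N : ℕ, δ ≤ g^[N] ((m + 1 : ℝ) / M) - g^[N] ((m : ℝ) / M) := by
    intro m
    have hab : (m : ℝ) / M < (m + 1 : ℝ) / M := by
      rw [div_lt_div_iff_of_pos_right hM0]; linarith
    refine cover_bound hg hn hC hab ?_ (no_wand hg hn hC0 hC hab)
    rw [add_div]
    have : (1 : ℝ) / M ≤ 1 := by rw [div_le_one hM0]; exact hM1'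
    linarith
  choose δ hδ hδ' using h1
  obtain ⟨δ0, hδ0, hδ0'⟩ : ∃ δ0 > 0, ∀ m < M, δ0 ≤ δ m := by
    have hne : (Finset.range M).Nonempty := ⟨0, Finset.mem_range.2 hM1⟩
    refine ⟨(Finset.range M).inf' hne δ, ?_, fun m hm => Finset.inf'_le _ (Finset.mem_range.2 hm)⟩
    rw [gt_iff_lt, Finset.lt_inf'_iff]
    exact fun m _ => hδ m
  refine ⟨δ0, hδ0, fun N x y hxy => ?_⟩
  set m' : ℤ := ⌈x * M⌉ with hm'
  have h2 : x * M ≤ m' := Int.le_ceil _
  have h3 : (m' : ℝ) < x * M + 1 := Int.ceil_lt_add_one _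
  have hMz : (0 : ℤ) < M := by exact_mod_cast hM1
  set q : ℤ := m' / M with hq
  have hmod0 : 0 ≤ m' % M := Int.emod_nonneg _ hMz.ne'
  have hmodM : m' % M < M := Int.emod_lt_of_pos _ hMz
  obtain ⟨m, hm⟩ := Int.eq_ofNat_of_zero_le hmod0
  have hmM : m < M := by
    have : (m : ℤ) < M := by rw [← hm]; exact hmodM
    exact_mod_cast this
  have h4 : m' = q * M + m := by
    have h5 := Int.emod_add_mul_ediv m' M
    rw [hm] at h5
    rw [hq]; linarith
  have h4' : (m' : ℝ) = q * M + m := by exact_mod_cast h4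
  have h5 : x ≤ (m : ℝ) / M + q := by
    rw [← sub_le_iff_le_add, le_div_iff₀ hM0]
    nlinarith
  have h6 : (m + 1 : ℝ) / M + q ≤ y := by
    rw [← le_sub_iff_add_le, div_le_iff₀ hM0]
    rw [div_lt_iff₀ hε] at hM
    nlinarith
  have h7 := (hg.iter N).mono.monotone h5
  have h8 := (hg.iter N).mono.monotone h6
  rw [(hg.iter N).add_int] at h7 h8
  linarith [hδ' m N, hδ0' m hmM]

end Pool.Agent.Lib.MP_1e8d1a_an.Circ
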