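import Mathlib
import Pool.Agent.Lib.MP_1e8d1a_an.Denjoy

/-!
Recurrent points of circle homeomorphisms with periodic points are periodic, and their returns
are exact.
-/

namespace Pool.Agent.Lib.MP_1e8d1a_an.Circ

open Function

theorem int_isolated (c : ℝ) : ∃ δ > 0, ∀ k : ℤ, |c - k| < δ → c = k := by
  by_cases h : ∃ k : ℤ, c = k
  · obtain ⟨k, rfl⟩ := h
    refine ⟨1, one_pos, fun l hl => ?_⟩
    have h1 : |k - l| < 1 := by exact_mod_cast hl
    rw [Int.abs_lt_one_iff] at h1
    have : k = l := by omega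
    rw [this]
  · push Not at h
    have h1 : 0 < Int.fract c := by
      rcases (Int.fract_nonneg c).lt_or_eq with h2 | h2
      · exact h2
      · exact absurd (show c = ⌊c⌋ by linarith [Int.self_sub_floor c]) (h _)
    have h2 := Int.fract_lt_one c
    refine ⟨min (Int.fract c) (1 - Int.fract c), lt_min h1 (by linarith), fun k hk => ?_⟩
    exfalso
    have h3 := hk.trans_le (min_le_left _ _)
    have h4 := hk.trans_le (min_le_right _ _)
    rw [abs_lt] at h3 h4
    have h5 : c = ⌊c⌋ + Int.fract c := (Int.floor_add_fract c).symm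
    have h6 : (k : ℝ) < ⌊c⌋ + 1 := by linarith
    have h7 : (⌊c⌋ : ℝ) < k := by linarith
    have h6' : k < ⌊c⌋ + 1 := by exact_mod_cast h6
    have h7' : ⌊c⌋ < k := by exact_mod_cast h7
    omega

theorem finite_isolated (n : ℕ) (c : ℕ → ℝ) :
    ∃ δ > 0, ∀ j < n, ∀ k : ℤ, |c j - k| < δ → c j = k := by
  choose δ hδ h using fun j => int_isolated (c j)
  rcases Nat.eq_zero_or_pos n with rfl | hn
  · exact ⟨1, one_pos, fun j hj => absurd hj (Nat.not_lt_zero j)⟩
  have hne : (Finset.range n).Nonempty := ⟨0, Finset.mem_range.2 hn⟩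
  refine ⟨(Finset.range n).inf' hne δ, ?_, fun j hj k hk => h j k (hk.trans_le ?_)⟩
  · rw [gt_iff_lt, Finset.lt_inf'_iff]
    exact fun m _ => hδ m
  · exact Finset.inf'_le _ (Finset.mem_range.2 hj)

theorem iter_le_of_le {τ : ℝ → ℝ} (hτ : StrictMono τ) {X : ℝ} (h : X ≤ τ X) (n : ℕ) :
    X ≤ τ^[n] X := by
  induction n with
  | zero => exact le_rfl
  | succ n ih =>
    rw [Function.iterate_succ_apply']
    exact h.trans (hτ.monotone ih)

theorem iter_mono_of_le {τ : ℝ → ℝ} (hτ : StrictMono τ) {X : ℝ} (h : X ≤ τ X) {m n : ℕ}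
    (hmn : m ≤ n) : τ^[m] X ≤ τ^[n] X := by
  obtain ⟨k, rfl⟩ := Nat.exists_eq_add_of_le hmn
  rw [Function.iterate_add_apply]
  exact (hτ.iterate m).monotone (iter_le_of_le hτ h k)

theorem no_rec_of_lt {g : ℝ → ℝ} (hg : CircLift g) {q : ℕ} (hq : 1 ≤ q) {p : ℤ} {y X : ℝ}
    (hy : g^[q] y = y + p) (hX : X < g^[q] X - p) :
    ∃ δ > 0, ∀ N : ℕ, 1 ≤ N → ∀ k : ℤ, δ ≤ |g^[N] X - X - k| := by
  set τ : ℝ → ℝ := fun z => g^[q] z + ((-p : ℤ) : ℝ) with hτ
  have hτl : CircLift τ := (hg.iter q).add_const _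
  have hτX : X < τ X := by simp only [hτ]; push_cast; linarith
  have hτy : τ y = y := by simp only [hτ]; push_cast; linarith
  obtain ⟨δ1, hδ1, hb⟩ : ∃ δ1 > 0, ∀ z, |z - X| < δ1 → X < τ z := by
    have h1 := (hτl.cont.tendsto X).eventually (lt_mem_nhds hτX)
    obtain ⟨δ1, hδ1, h2⟩ := Metric.eventually_nhds_iff.1 h1
    exact ⟨δ1, hδ1, fun z hz => h2 (by rwa [Real.dist_eq])⟩
  obtain ⟨δ2, hδ2, hc⟩ := finite_isolated q (fun N => g^[N] X - X)
  refine ⟨min (τ X - X) (min δ1 δ2), lt_min (by linarith) (lt_min hδ1 hδ2), fun N hN k => ?_⟩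
  by_contra hcon
  push Not at hcon
  have ca := hcon.trans_le (min_le_left _ _)
  have cb := (hcon.trans_le (min_le_right _ _)).trans_le (min_le_left _ _)
  have cc := (hcon.trans_le (min_le_right _ _)).trans_le (min_le_right _ _)
  set u : ℝ → ℝ := fun z => g^[N] z + ((-k : ℤ) : ℝ) with hu
  have hul : CircLift u := (hg.iter N).add_const _
  have huX : u X - X = g^[N] X - X - k := by simp only [hu]; push_cast; ring
  have hu1 : u X < τ X := by
    have := (abs_lt.1 ca).2
    linarith
  have hu2 : X < τ (u X) := hb _ (by rw [huX]; exact cb)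
  have hcomm : Function.Commute u τ := by
    intro z
    simp only [hu, hτ, (hg.iter N).add_int, (hg.iter q).add_int]
    rw [← Function.iterate_add_apply, ← Function.iterate_add_apply, add_comm N q]
    ring
  -- `u^q = τ^N + c`
  set c : ℤ := N * p - q * k with hcdef
  have huq : ∀ (j : ℕ) (z : ℝ), u^[q * j] z = τ^[N * j] z + j * c := by
    intro j z
    rw [hu, hτ, pow_add_int hg, pow_add_int hg]
    rw [show N * (q * j) = q * (N * j) by ring, hcdef]
    push_cast
    ring
  -- fixed point of `τ` above `X`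
  obtain ⟨Y, hYX, hY1, hτY⟩ : ∃ Y, X < Y ∧ Y ≤ X + 1 ∧ τ Y = Y := by
    refine ⟨y + (⌊X - y⌋ + 1 : ℤ), ?_, ?_, ?_⟩
    · push_cast; linarith [Int.lt_floor_add_one (X - y)]
    · push_cast; linarith [Int.floor_le (X - y)]
    · rw [hτl.add_int, hτy]
  have hτYn : ∀ n, τ^[n] Y = Y := fun n => Function.iterate_fixed hτY n
  have hτn : ∀ n, τ^[n] X < Y := fun n => by
    have := (hτl.iter n).mono hYX
    rwa [hτYn] at this
  have hle : ∀ n, X ≤ τ^[n] X := iter_le_of_le hτl.mono hτX.le
  have hun : ∀ n, u^[n] X ≤ τ^[n] X := by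
    intro n
    induction n with
    | zero => exact le_rfl
    | succ n ih =>
      rw [Function.iterate_succ_apply, Function.iterate_succ_apply' (f := τ)]
      have h1 : u^[n] (u X) ≤ u^[n] (τ X) := (hul.iter n).mono.monotone hu1.le
      have h2 : u^[n] (τ X) = τ (u^[n] X) := hcomm.iterate_left n X
      rw [h2] at h1
      exact h1.trans (hτl.mono.monotone ih)
  have hun' : ∀ n, X ≤ τ^[n] (u^[n] X) := by
    intro n
    induction n with
    | zero => exact le_rfl
    | succ n ih =>
      have h1 : τ^[n] (u^[n] X) ≤ τ^[n] (u^[n] (τ (u X))) :=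
        (hτl.iter n).mono.monotone ((hul.iter n).mono.monotone hu2.le)
      have h2 : u^[n] (τ (u X)) = τ (u^[n] (u X)) := hcomm.iterate_left n (u X)
      rw [h2, ← Function.iterate_succ_apply, ← Function.iterate_succ_apply] at h1
      exact ih.trans h1
  have hc0 : c = 0 := by
    have h1 : (c : ℝ) < 1 := by
      have h2 := hun (q * 1)
      rw [huq] at h2
      have h3 := hτn (q * 1)
      have h4 := hle (N * 1)
      push_cast at h2
      linarith
    have h2 : (-1 : ℝ) < c := by
      have h2 := hun' (q * 1)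
      rw [huq, show ((1 : ℕ) : ℝ) * (c : ℝ) = ((c : ℤ) : ℝ) by push_cast; ring, (hτl.iter _).add_int] at h2
      have h3 := hτn (q * 1 + N * 1)
      rw [Function.iterate_add_apply] at h3
      linarith
    have h1' : c < 1 := by exact_mod_cast h1
    have h2' : -1 < c := by exact_mod_cast h2
    omega
  have huN : u^[q] X = τ^[N] X := by
    have := huq 1 X
    rw [hc0, mul_one, mul_one] at this
    simpa using this
  rcases lt_or_ge N q with hNq | hNq
  · have h1 : u X = X := by
      have := hc N hNq k cc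
      rw [← sub_eq_zero] at this
      linarith [huX]
    have h2 : u^[q] X = X := Function.iterate_fixed h1 q
    rw [h2] at huN
    have h3 := iter_mono_of_le hτl.mono hτX.le hN
    simp only [Function.iterate_one] at h3
    linarith
  · -- strict inequality
    obtain ⟨q', rfl⟩ : ∃ q', q = q' + 1 := ⟨q - 1, by omega⟩
    have h1 : u^[q' + 1] X < τ^[q' + 1] X := by
      rw [Function.iterate_succ_apply, Function.iterate_succ_apply' (f := τ)]
      have h1 : u^[q'] (u X) < u^[q'] (τ X) := (hul.iter q').mono hu1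
      have h2 : u^[q'] (τ X) = τ (u^[q'] X) := hcomm.iterate_left q' X
      rw [h2] at h1
      exact h1.trans_le (hτl.mono.monotone (hun q'))
    have h2 := iter_mono_of_le hτl.mono hτX.le hNq
    linarith

end Pool.Agent.Lib.MP_1e8d1a_an.Circ
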