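import Mathlib
import Pool.Agent.Lib.MP_1e8d1a_an.CircRec

/-!
Closing with tracking for circle diffeomorphisms: if the distortion is controlled, almost
returning orbit segments can be closed by a small rotation, and the closed orbit stays close to
the given one.
-/

namespace Pool.Agent.Lib.MP_1e8d1a_an.Circ

open Function

theorem refl_lift {g : ℝ → ℝ} (hg : CircLift g) : CircLift (fun x => -g (-x)) where
  mono := fun x y h => by
    have := hg.mono (neg_lt_neg h)
    exact neg_lt_neg this
  cont := (hg.cont.comp continuous_neg).neg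
  per x := by
    have := hg.sub_int (-x) 1
    push_cast at this
    have e : -(x + 1) = -x - 1 := by ring
    rw [e, this]
    ring

theorem refl_iter (g : ℝ → ℝ) (n : ℕ) (x : ℝ) :
    (fun x => -g (-x))^[n] x = -(g^[n] (-x)) := by
  induction n generalizing x with
  | zero => simp
  | succ n ih =>
    rw [Function.iterate_succ_apply, ih, Function.iterate_succ_apply, neg_neg]

theorem exact_return {g : ℝ → ℝ} (hg : CircLift g) {q : ℕ} (hq : 1 ≤ q) {p : ℤ} {y : ℝ}
    (hy : g^[q] y = y + p) (X : ℝ) :
    ∃ δ > 0, ∀ N : ℕ, 1 ≤ N → ∀ k : ℤ, |g^[N] X - X - k| < δ → g^[N] X = X + k := by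
  rcases lt_trichotomy X (g^[q] X - p) with h | h | h
  · obtain ⟨δ, hδ, H⟩ := no_rec_of_lt hg hq hy h
    exact ⟨δ, hδ, fun N hN k hk => absurd hk (not_lt.2 (H N hN k))⟩
  · obtain ⟨δ, hδ, H⟩ := finite_isolated q (fun N => g^[N] X - X)
    refine ⟨δ, hδ, fun N _ k hk => ?_⟩
    have h1 : ∀ a : ℕ, g^[q * a] X = X + a * p := by
      intro a
      have h2 := pow_add_int hg q (-p) a X
      have h3 : (fun x => g^[q] x + ((-p : ℤ) : ℝ))^[a] X = X := by
        apply Function.iterate_fixed
        push_cast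
        linarith
      rw [h3] at h2
      push_cast at h2
      linarith
    obtain ⟨a, ha⟩ : ∃ a : ℕ, N = N % q + q * a := ⟨N / q, (Nat.mod_add_div N q).symm⟩
    have hlt : N % q < q := Nat.mod_lt _ (by omega)
    generalize N % q = b at ha hlt
    have h4 : g^[N] X = g^[b] X + (((a : ℤ) * p : ℤ) : ℝ) := by
      rw [ha, Function.iterate_add_apply, h1]
      have := (hg.iter b).add_int X ((a : ℤ) * p)
      rw [← this]
      congr 1
      push_cast
      ring
    have h5 := H b hlt (k - (a : ℤ) * p) (by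
      rw [h4] at hk
      push_cast at hk ⊢
      rwa [show g^[b] X - X - (↑k - ↑a * ↑p) = g^[b] X + ↑a * ↑p - X - ↑k by ring])
    rw [h4]
    push_cast at h5 ⊢
    linarith
  · have h1 : (fun x => -g (-x))^[q] (-y) = -y + ((-p : ℤ) : ℝ) := by
      rw [refl_iter, neg_neg, hy]
      push_cast
      ring
    have h2 : -X < (fun x => -g (-x))^[q] (-X) - ((-p : ℤ) : ℝ) := by
      rw [refl_iter, neg_neg]
      push_cast
      linarith
    obtain ⟨δ, hδ, H⟩ := no_rec_of_lt (refl_lift hg) hq h1 h2
    refine ⟨δ, hδ, fun N hN k hk => absurd hk (not_lt.2 ?_)⟩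
    have h3 := H N hN (-k)
    rw [refl_iter, neg_neg] at h3
    push_cast at h3
    rw [show -g^[N] X - -X - -(k : ℝ) = -(g^[N] X - X - k) by ring, abs_neg] at h3
    exact h3

theorem iter_add_le {g : ℝ → ℝ} (hg : Monotone g) {t t' : ℝ} (ht : t ≤ t') {x x' : ℝ}
    (hx : x ≤ x') (m : ℕ) : (fun x => g x + t)^[m] x ≤ (fun x => g x + t')^[m] x' := by
  induction m with
  | zero => simpa
  | succ m ih =>
    rw [Function.iterate_succ_apply', Function.iterate_succ_apply']
    exact add_le_add (hg ih) ht

theorem iter_add_zero (g : ℝ → ℝ) (m : ℕ) (x : ℝ) : (fun x => g x + 0)^[m] x = g^[m] x := by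
  simp

theorem iter_add_cont {g : ℝ → ℝ} (hg : Continuous g) (x : ℝ) (m : ℕ) :
    Continuous fun t => (fun x => g x + t)^[m] x := by
  induction m with
  | zero => simpa using continuous_const
  | succ m ih =>
    have : (fun t => (fun x => g x + t)^[m + 1] x) = fun t => g ((fun x => g x + t)^[m] x) + t := by
      funext t
      rw [Function.iterate_succ_apply']
    rw [this]
    exact (hg.comp ih).add continuous_id

theorem stay_abs {g : ℝ → ℝ} {ε δ : ℝ}
    (h : ∀ (N : ℕ) (x y : ℝ), ε ≤ y - x → δ ≤ g^[N] y - g^[N] x) (N : ℕ) (x y : ℝ)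
    (hxy : |g^[N] y - g^[N] x| < δ) : |y - x| < ε := by
  by_contra hcon
  push Not at hcon
  rcases le_total 0 (y - x) with h1 | h1
  · rw [abs_of_nonneg h1] at hcon
    have h2 := h N x y hcon
    have h3 := le_abs_self (g^[N] y - g^[N] x)
    linarith
  · rw [abs_of_nonpos h1] at hcon
    have h2 := h N y x (by linarith)
    have h3 := neg_abs_le (g^[N] y - g^[N] x)
    linarith

theorem iter_inv {g g' : ℝ → ℝ} (h1 : ∀ x, g (g' x) = x) (n : ℕ) (x : ℝ) :
    g^[n] (g'^[n] x) = x := by
  have : Function.RightInverse g' g := h1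
  exact this.iterate n x

theorem noPer_inv {g g' : ℝ → ℝ} (hg : CircLift g)
    (h1 : ∀ x, g (g' x) = x) (h : NoPer g) : NoPer g' := by
  intro n hn m x hx
  have h2 := iter_inv h1 n x
  rw [hx, (hg.iter n).add_int] at h2
  refine h n hn (-m) x ?_
  push_cast
  linarith

/-- **Closing with tracking.** -/
theorem usc {g g' : ℝ → ℝ} (hg : CircLift g) (hg' : CircLift g') (h1 : ∀ x, g (g' x) = x)
    (h2 : ∀ x, g' (g x) = x) {C C' : ℝ} (hC0 : 0 ≤ C) (hC : Dist g C) (hC0' : 0 ≤ C')
    (hC' : Dist g' C') (X : ℝ)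
    {ε : ℝ} (hε : 0 < ε) :
    ∃ δ > 0, ∀ N : ℕ, 1 ≤ N → ∀ k : ℤ, ∀ z, |z - X| < δ → |g^[N] z - X - k| < δ →
      (z = X ∨ g^[N] z = X + k) →
      ∃ t, |t| < ε ∧ (fun x => g x + t)^[N] X = X + k ∧
        ∀ m ≤ N, |(fun x => g x + t)^[m] X - g^[m] z| < ε := by
  by_cases hnp : NoPer g
  · have hnp' : NoPer g' := noPer_inv hg h1 hnp
    obtain ⟨δ2, hδ2, H2⟩ := long_stay hg hnp hC0 hC (half_pos hε)
    set ε1 : ℝ := min (ε / 2) (min δ2 ε / 2) with hε1
    have hm : 0 < min δ2 ε := lt_min hδ2 hε
    have hε1' : 0 < ε1 := lt_min (half_pos hε) (half_pos hm)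
    obtain ⟨δ1, hδ1, H1⟩ := long_stay hg' hnp' hC0' hC' hε1'
    refine ⟨min δ1 (min δ2 ε / 2), lt_min hδ1 (half_pos hm), fun N hN k z hz1 hz2 _ => ?_⟩
    have hA : ∀ m, |g^[m] z - g^[m] X| < ε1 := by
      intro m
      apply stay_abs H1 m
      rw [iter_inv h2, iter_inv h2]
      exact hz1.trans_le (min_le_left _ _)
    have hd : |X + k - g^[N] X| < min δ2 ε := by
      have e : X + k - g^[N] X = -(g^[N] z - X - k) + (g^[N] z - g^[N] X) := by ring
      rw [e]
      refine (abs_add_le _ _).trans_lt ?_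
      rw [abs_neg]
      have a1 := hA N
      have a2 : ε1 ≤ min δ2 ε / 2 := min_le_right _ _
      have a3 := hz2.trans_le (min_le_right _ _)
      linarith
    set d := X + k - g^[N] X with hdd
    obtain ⟨N', rfl⟩ : ∃ N', N = N' + 1 := ⟨N - 1, by omega⟩
    -- the intermediate value argument
    obtain ⟨t, ht, hit⟩ : ∃ t ∈ Set.Icc (-|d|) |d|, (fun x => g x + t)^[N' + 1] X = X + k := by
      have hcont := (iter_add_cont hg.cont X (N' + 1)).continuousOn (s := Set.Icc (-|d|) |d|)
      have hle : -|d| ≤ |d| := by linarith [abs_nonneg d]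
      refine intermediate_value_Icc hle hcont ⟨?_, ?_⟩
      · rw [Function.iterate_succ_apply']
        have b1 : (fun x => g x + -|d|)^[N'] X ≤ (fun x => g x + 0)^[N'] X :=
          iter_add_le hg.mono.monotone (by linarith [abs_nonneg d]) le_rfl _
        rw [iter_add_zero] at b1
        have b2 := hg.mono.monotone b1
        rw [← Function.iterate_succ_apply' g] at b2
        have b3 := neg_abs_le d
        linarith
      · rw [Function.iterate_succ_apply']
        have b1 : (fun x => g x + 0)^[N'] X ≤ (fun x => g x + |d|)^[N'] X :=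
          iter_add_le hg.mono.monotone (by linarith [abs_nonneg d]) le_rfl _
        rw [iter_add_zero] at b1
        have b2 := hg.mono.monotone b1
        rw [← Function.iterate_succ_apply' g] at b2
        have b3 := le_abs_self d
        linarith
    have ht' : |t| ≤ |d| := abs_le.2 ht
    refine ⟨t, ht'.trans_lt (hd.trans_le (min_le_right _ _)), hit, fun m hmN => ?_⟩
    have hclose : |(fun x => g x + t)^[m] X - g^[m] X| < ε / 2 := by
      apply stay_abs H2 (N' + 1 - m)
      rw [← Function.iterate_add_apply, Nat.sub_add_cancel hmN]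
      have hX : X + k = (fun x => g x + t)^[N' + 1 - m] ((fun x => g x + t)^[m] X) := by
        rw [← Function.iterate_add_apply, Nat.sub_add_cancel hmN, hit]
      refine lt_of_le_of_lt ?_ (hd.trans_le (min_le_left _ _))
      rcases le_total 0 t with h0 | h0
      · have c1 : (fun x => g x + 0)^[m] X ≤ (fun x => g x + t)^[m] X :=
          iter_add_le hg.mono.monotone h0 le_rfl _
        have c2 : (fun x => g x + 0)^[N' + 1 - m] ((fun x => g x + t)^[m] X) ≤ X + k := by
          rw [hX]
          exact iter_add_le hg.mono.monotone h0 le_rfl _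
        rw [iter_add_zero] at c1 c2
        have c3 := (hg.iter (N' + 1 - m)).mono.monotone c1
        rw [← Function.iterate_add_apply, Nat.sub_add_cancel hmN] at c3
        rw [abs_of_nonneg (by linarith)]
        exact le_trans (by linarith) (le_abs_self d)
      · have c1 : (fun x => g x + t)^[m] X ≤ (fun x => g x + 0)^[m] X :=
          iter_add_le hg.mono.monotone h0 le_rfl _
        have c2 : X + k ≤ (fun x => g x + 0)^[N' + 1 - m] ((fun x => g x + t)^[m] X) := by
          rw [hX]
          exact iter_add_le hg.mono.monotone h0 le_rfl _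
        rw [iter_add_zero] at c1 c2
        have c3 := (hg.iter (N' + 1 - m)).mono.monotone c1
        rw [← Function.iterate_add_apply, Nat.sub_add_cancel hmN] at c3
        rw [abs_of_nonpos (by linarith)]
        have := neg_abs_le d
        linarith
    have e : (fun x => g x + t)^[m] X - g^[m] z =
        ((fun x => g x + t)^[m] X - g^[m] X) + -(g^[m] z - g^[m] X) := by ring
    rw [e]
    refine (abs_add_le _ _).trans_lt ?_
    rw [abs_neg]
    have a1 := hA m
    have a2 : ε1 ≤ ε / 2 := min_le_left _ _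
    linarith
  · unfold NoPer at hnp
    push Not at hnp
    obtain ⟨q, hq, p, y, hy⟩ := hnp
    obtain ⟨δ1, hδ1, H1⟩ := exact_return hg hq hy X
    have hy' : g'^[q] y = y + ((-p : ℤ) : ℝ) := by
      have h3 := iter_inv h2 q y
      rw [hy, (hg'.iter q).add_int] at h3
      push_cast
      linarith
    obtain ⟨δ2, hδ2, H2⟩ := exact_return hg' hq hy' X
    refine ⟨min δ1 δ2, lt_min hδ1 hδ2, fun N hN k z hz1 hz2 hz => ?_⟩
    obtain ⟨hzX, hzN⟩ : z = X ∧ g^[N] X = X + k := by
      rcases hz with rfl | hz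
      · exact ⟨rfl, H1 N hN k (hz2.trans_le (min_le_left _ _))⟩
      · have h3 : z = g'^[N] X + k := by
          have h4 := iter_inv h2 N z
          rw [hz, (hg'.iter N).add_int] at h4
          exact h4.symm
        have h5 := H2 N hN (-k) (by
          push_cast
          have := hz1.trans_le (min_le_right _ _)
          rw [h3] at this
          rwa [show g'^[N] X - X - -(k : ℝ) = g'^[N] X + k - X by ring])
        push_cast at h5
        have h6 : z = X := by linarith
        exact ⟨h6, by rw [← h6, hz, h6]⟩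
    subst hzX
    refine ⟨0, by simpa using hε, ?_, fun m _ => ?_⟩
    · rw [iter_add_zero, hzN]
    · rw [iter_add_zero, sub_self, abs_zero]
      exact hε

/-- bounded distortion from `C²` regularity -/
theorem dist_of_contDiff {g g' : ℝ → ℝ} (hg : CircLift g) (hgd : ContDiff ℝ 2 g)
    (hgd' : ContDiff ℝ 2 g') (h2 : ∀ x, g' (g x) = x) : ∃ C, 0 ≤ C ∧ Dist g C := by
  have hdg : Differentiable ℝ g := hgd.differentiable (by norm_num)
  have hdg' : Differentiable ℝ g' := hgd'.differentiable (by norm_num)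
  have hpos : ∀ x, 0 < deriv g x := by
    intro x
    refine lt_of_le_of_ne (hg.mono.monotone.deriv_nonneg) ?_
    intro h0
    have h3 : HasDerivAt (g' ∘ g) (deriv g' (g x) * deriv g x) x :=
      (hdg' (g x)).hasDerivAt.comp x (hdg x).hasDerivAt
    have h4 : g' ∘ g = id := funext h2
    rw [h4, ← h0, mul_zero] at h3
    have := h3.unique (hasDerivAt_id x)
    norm_num at this
  have hd1 : ContDiff ℝ 1 (deriv g) := by
    have : ContDiff ℝ (1 + 1) g := by
      have e : (1 + 1 : WithTop ℕ∞) = 2 := by norm_num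
      rw [e]; exact hgd
    exact (contDiff_succ_iff_deriv.1 this).2.2
  set φ : ℝ → ℝ := fun x => Real.log (deriv g x) with hφ
  have hφd : ContDiff ℝ 1 φ := hd1.log fun x => (hpos x).ne'
  have hφdd : Differentiable ℝ φ := hφd.differentiable one_ne_zero
  have hperd : ∀ x, deriv g (x + 1) = deriv g x := by
    intro x
    have h3 : (fun y => g (y + 1)) = fun y => g y + 1 := funext hg.per
    have h4 := deriv_comp_add_const g 1 x
    rw [h3, deriv_add_const] at h4
    exact h4.symm
  have hperφ : ∀ x, φ (x + 1) = φ x := fun x => by simp only [hφ, hperd]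
  have hperφd : Function.Periodic (deriv φ) 1 := by
    intro x
    have h3 : (fun y => φ (y + 1)) = φ := funext hperφ
    have h4 := deriv_comp_add_const φ 1 x
    rw [h3] at h4
    exact h4.symm
  have hcont : Continuous (deriv φ) := hφd.continuous_deriv le_rfl
  obtain ⟨C, hC⟩ := (isCompact_Icc (a := (0 : ℝ)) (b := 1)).exists_bound_of_continuousOn
    hcont.continuousOn
  have hCb : ∀ x, ‖deriv φ x‖ ≤ max C 0 := by
    intro x
    have h3 : deriv φ x = deriv φ (Int.fract x) := by
      have := hperφd.sub_int_mul_eq ⌊x⌋ (x := x)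
      rw [mul_one] at this
      exact this.symm
    rw [h3]
    exact (hC _ ⟨Int.fract_nonneg x, (Int.fract_lt_one x).le⟩).trans (le_max_left _ _)
  refine ⟨max C 0, le_max_right _ _, ?_⟩
  intro u v a b a' b' hu hab hb hu' hab' hb'
  obtain ⟨ξ, hξ, hξ'⟩ := exists_deriv_eq_slope g hab hdg.continuous.continuousOn
    hdg.differentiableOn
  obtain ⟨ζ, hζ, hζ'⟩ := exists_deriv_eq_slope g hab' hdg.continuous.continuousOn
    hdg.differentiableOn
  have e1 : g b - g a = deriv g ξ * (b - a) := by
    rw [hξ']; field_simp [sub_ne_zero.2 hab.ne']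
  have e2 : g b' - g a' = deriv g ζ * (b' - a') := by
    rw [hζ']; field_simp [sub_ne_zero.2 hab'.ne']
  have h5 : ‖φ ξ - φ ζ‖ ≤ max C 0 * ‖ξ - ζ‖ :=
    Convex.norm_image_sub_le_of_norm_deriv_le (s := Set.univ) (fun x _ => hφdd x)
      (fun x _ => hCb x) convex_univ (Set.mem_univ _) (Set.mem_univ _)
  have h6 : φ ξ ≤ max C 0 * (v - u) + φ ζ := by
    have h7 : ‖ξ - ζ‖ ≤ v - u := by
      rw [Real.norm_eq_abs, abs_le]
      constructor <;> linarith [hξ.1, hξ.2, hζ.1, hζ.2]
    have h8 := mul_le_mul_of_nonneg_left h7 (le_max_right C 0)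
    have h9 := le_abs_self (φ ξ - φ ζ)
    rw [Real.norm_eq_abs] at h5
    linarith
  have h7 : deriv g ξ ≤ Real.exp (max C 0 * (v - u)) * deriv g ζ := by
    have := Real.exp_le_exp.2 h6
    rw [Real.exp_add] at this
    simp only [hφ] at this
    rwa [Real.exp_log (hpos _), Real.exp_log (hpos _)] at this
  rw [e1, e2]
  have hp : 0 ≤ (b - a) * (b' - a') := mul_nonneg (by linarith) (by linarith)
  calc deriv g ξ * (b - a) * (b' - a') = deriv g ξ * ((b - a) * (b' - a')) := by ring
    _ ≤ Real.exp (max C 0 * (v - u)) * deriv g ζ * ((b - a) * (b' - a')) :=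
        mul_le_mul_of_nonneg_right h7 hp
    _ = _ := by ring

end Pool.Agent.Lib.MP_1e8d1a_an.Circ
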