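import Mathlib

/-!
Uniform solvability of `Δ (i+1) = A Δ i - e i + (terms in the range of q(A))` on cyclic
sequences, with a constant that does not depend on the period.
-/

namespace Pool.Agent.Lib.MP_1e8d1a_an.CyclicShadow

open Polynomial

/-- The shift on cyclic sequences. -/
def shift (R V : Type*) [Semiring R] [AddCommMonoid V] [Module R V] (N : ℕ) :
    Module.End R (ZMod N → V) where
  toFun Y := fun i => Y (i + 1)
  map_add' _ _ := rfl
  map_smul' _ _ := rfl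

theorem shift_apply {R V : Type*} [Semiring R] [AddCommMonoid V] [Module R V] {N : ℕ}
    (Y : ZMod N → V) (i : ZMod N) : shift R V N Y i = Y (i + 1) := rfl

theorem shift_pow_apply {R V : Type*} [Semiring R] [AddCommMonoid V] [Module R V] {N : ℕ}
    (k : ℕ) (Y : ZMod N → V) (i : ZMod N) : ((shift R V N) ^ k) Y i = Y (i + k) := by
  induction k generalizing i with
  | zero => simp
  | succ k ih =>
    rw [pow_succ', Module.End.mul_apply, shift_apply, ih]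
    congr 1
    push_cast
    ring

/-- one factor -/
theorem one_factor (μ : ℂ) (hμ : ‖μ‖ ≠ 1) : ∃ C : ℝ, 0 ≤ C ∧ ∀ (N : ℕ) [NeZero N]
    (e : ZMod N → ℂ) (M : ℝ), (∀ i, ‖e i‖ ≤ M) →
    ∃ Y : ZMod N → ℂ, (aeval (shift ℂ ℂ N) (X - Polynomial.C μ)) Y = e ∧ ∀ i, ‖Y i‖ ≤ C * M := by
  set δ : ℝ := |1 - ‖μ‖| with hδ
  have hδ0 : 0 < δ := abs_pos.mpr (sub_ne_zero.mpr (Ne.symm hμ))
  refine ⟨1 / δ, by positivity, ?_⟩
  intro N _ e M hM
  -- a priori bound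
  have apriori : ∀ (Y : ZMod N → ℂ) (B : ℝ), (∀ i, ‖Y (i + 1) - μ * Y i‖ ≤ B) →
      ∀ i, ‖Y i‖ ≤ 1 / δ * B := by
    intro Y B hB
    obtain ⟨i0, hi0⟩ := Finite.exists_max fun i => ‖Y i‖
    have hB0 : 0 ≤ B := le_trans (norm_nonneg _) (hB i0)
    have hmain : δ * ‖Y i0‖ ≤ B := by
      rcases lt_or_gt_of_ne hμ with h | h
      · have h1 := hB (i0 - 1)
        rw [sub_add_cancel] at h1
        have h2 : ‖Y i0‖ ≤ ‖Y i0 - μ * Y (i0 - 1)‖ + ‖μ * Y (i0 - 1)‖ := by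
          have := norm_add_le (Y i0 - μ * Y (i0 - 1)) (μ * Y (i0 - 1))
          simpa using this
        rw [norm_mul] at h2
        have h3 : ‖μ‖ * ‖Y (i0 - 1)‖ ≤ ‖μ‖ * ‖Y i0‖ :=
          mul_le_mul_of_nonneg_left (hi0 _) (norm_nonneg _)
        have h4 : δ = 1 - ‖μ‖ := by rw [hδ, abs_of_pos (by linarith)]
        rw [h4]; nlinarith
      · have h1 := hB i0
        have h2 : ‖μ * Y i0‖ ≤ ‖Y (i0 + 1) - μ * Y i0‖ + ‖Y (i0 + 1)‖ := by
          have := norm_sub_le (Y (i0 + 1)) (Y (i0 + 1) - μ * Y i0)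
          rw [sub_sub_cancel] at this
          linarith
        rw [norm_mul] at h2
        have h3 := hi0 (i0 + 1)
        have h4 : δ = ‖μ‖ - 1 := by rw [hδ, abs_of_neg (by linarith)]; ring
        rw [h4]
        nlinarith
    intro i
    have h5 : ‖Y i‖ ≤ ‖Y i0‖ := hi0 i
    rw [one_div, inv_mul_eq_div, le_div_iff₀ hδ0]
    nlinarith
  have haeval : ∀ Y : ZMod N → ℂ, (aeval (shift ℂ ℂ N) (X - Polynomial.C μ)) Y
      = fun i => Y (i + 1) - μ * Y i := by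
    intro Y
    funext i
    simp [shift_apply]
  have hinj : Function.Injective (aeval (shift ℂ ℂ N) (X - Polynomial.C μ)) := by
    rw [injective_iff_map_eq_zero]
    intro Y hY
    rw [haeval] at hY
    funext i
    have := apriori Y 0 (fun j => by rw [congrFun hY j]; simp) i
    simpa using this
  have hsurj := (LinearMap.injective_iff_surjective (f := aeval (shift ℂ ℂ N) (X - Polynomial.C μ))).mp hinj
  obtain ⟨Y, hY⟩ := hsurj e
  refine ⟨Y, hY, ?_⟩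
  rw [haeval] at hY
  exact apriori Y M (fun i => by rw [congrFun hY i]; exact hM i)

theorem multi_factor (s : Multiset ℂ) : (∀ μ ∈ s, ‖μ‖ ≠ 1) → ∃ C : ℝ, 0 ≤ C ∧ ∀ (N : ℕ) [NeZero N]
    (e : ZMod N → ℂ) (M : ℝ), (∀ i, ‖e i‖ ≤ M) →
    ∃ Y : ZMod N → ℂ, (aeval (shift ℂ ℂ N) (s.map fun μ => X - Polynomial.C μ).prod) Y = e
      ∧ ∀ i, ‖Y i‖ ≤ C * M := by
  induction s using Multiset.induction_on with
  | empty =>
    intro _
    refine ⟨1, zero_le_one, ?_⟩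
    intro N _ e M hM
    exact ⟨e, by simp, by simpa using hM⟩
  | cons μ s ih =>
    intro h
    obtain ⟨C1, hC1, h1⟩ := one_factor μ (h μ (Multiset.mem_cons_self μ s))
    obtain ⟨C2, hC2, h2⟩ := ih fun ν hν => h ν (Multiset.mem_cons_of_mem hν)
    refine ⟨C2 * C1, mul_nonneg hC2 hC1, ?_⟩
    intro N _ e M hM
    obtain ⟨Y1, hY1, hb1⟩ := h1 N e M hM
    obtain ⟨Y2, hY2, hb2⟩ := h2 N Y1 (C1 * M) hb1
    refine ⟨Y2, ?_, fun i => by rw [mul_assoc]; exact hb2 i⟩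
    rw [Multiset.map_cons, Multiset.prod_cons, map_mul, Module.End.mul_apply, hY2, hY1]

theorem complex_poly (P : ℂ[X]) (hP : ∀ z : ℂ, ‖z‖ = 1 → P.eval z ≠ 0) :
    ∃ C : ℝ, 0 ≤ C ∧ ∀ (N : ℕ) [NeZero N] (e : ZMod N → ℂ) (M : ℝ), (∀ i, ‖e i‖ ≤ M) →
    ∃ Y : ZMod N → ℂ, (aeval (shift ℂ ℂ N) P) Y = e ∧ ∀ i, ‖Y i‖ ≤ C * M := by
  have hP0 : P ≠ 0 := by
    intro h; apply hP 1 (by simp); simp [h]
  have hlc : P.leadingCoeff ≠ 0 := by simpa using hP0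
  have hroots : ∀ μ ∈ P.roots, ‖μ‖ ≠ 1 := by
    intro μ hμ h1
    exact hP μ h1 ((Polynomial.mem_roots hP0).mp hμ)
  obtain ⟨C, hC, h⟩ := multi_factor P.roots hroots
  refine ⟨C * ‖P.leadingCoeff‖⁻¹, by positivity, ?_⟩
  intro N _ e M hM
  obtain ⟨Y, hY, hb⟩ := h N (fun i => P.leadingCoeff⁻¹ * e i) (‖P.leadingCoeff‖⁻¹ * M) (by
    intro i; rw [norm_mul, norm_inv]
    exact mul_le_mul_of_nonneg_left (hM i) (by positivity))
  refine ⟨Y, ?_, fun i => by rw [mul_assoc]; exact hb i⟩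
  have hfac : P = Polynomial.C P.leadingCoeff * (P.roots.map fun μ => X - Polynomial.C μ).prod :=
    (IsAlgClosed.splits P).eq_prod_roots
  rw [hfac, map_mul, Module.End.mul_apply, hY, aeval_C]
  funext i
  simp [Module.algebraMap_end_apply, hP0]

theorem aeval_shift_apply {R V : Type*} [CommSemiring R] [AddCommMonoid V] [Module R V] {N : ℕ}
    (p : Polynomial R) (Y : ZMod N → V) (i : ZMod N) :
    (aeval (shift R V N) p) Y i
      = ∑ k ∈ Finset.range (p.natDegree + 1), p.coeff k • Y (i + (k : ZMod N)) := by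
  rw [aeval_eq_sum_range, LinearMap.sum_apply, Finset.sum_apply]
  refine Finset.sum_congr rfl fun k _ => ?_
  rw [LinearMap.smul_apply, Pi.smul_apply, shift_pow_apply]

/-- real vector valued version -/
theorem real_poly {n : ℕ} (q : ℝ[X]) (hq : ∀ z : ℂ, ‖z‖ = 1 → aeval z q ≠ 0) :
    ∃ C : ℝ, 0 ≤ C ∧ ∀ (N : ℕ) [NeZero N] (e : ZMod N → (Fin n → ℝ)) (M : ℝ), (∀ i, ‖e i‖ ≤ M) →
    ∃ Y : ZMod N → (Fin n → ℝ), (aeval (shift ℝ (Fin n → ℝ) N) q) Y = e ∧ ∀ i, ‖Y i‖ ≤ C * M := by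
  obtain ⟨C, hC, h⟩ := complex_poly (q.map (algebraMap ℝ ℂ)) (fun z hz => by
    rw [eval_map_algebraMap]; exact hq z hz)
  refine ⟨C, hC, ?_⟩
  intro N _ e M hM
  have hM0 : 0 ≤ M := (norm_nonneg _).trans (hM 0)
  have hex : ∀ j : Fin n, ∃ Y : ZMod N → ℂ,
      (aeval (shift ℂ ℂ N) (q.map (algebraMap ℝ ℂ))) Y = (fun i => ((e i j : ℝ) : ℂ))
      ∧ ∀ i, ‖Y i‖ ≤ C * M := by
    intro j
    apply h N
    intro i
    rw [Complex.norm_real]
    exact (norm_le_pi_norm (e i) j).trans (hM i)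
  choose Y hY hb using hex
  refine ⟨fun i j => (Y j i).re, ?_, ?_⟩
  · funext i j
    have h1 := congrFun (hY j) i
    rw [aeval_shift_apply] at h1 ⊢
    rw [Polynomial.natDegree_map_eq_of_injective (algebraMap ℝ ℂ).injective] at h1
    have h2 := congrArg Complex.re h1
    rw [Complex.re_sum, Complex.ofReal_re] at h2
    rw [Finset.sum_apply, ← h2]
    refine Finset.sum_congr rfl fun k _ => ?_
    rw [Polynomial.coeff_map]
    simp
  · intro i
    rw [pi_norm_le_iff_of_nonneg (mul_nonneg hC hM0)]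
    intro j
    rw [Real.norm_eq_abs]
    exact (Complex.abs_re_le_norm _).trans (hb j i)

/-- `A` acting pointwise on cyclic sequences -/
def pw {n : ℕ} (A : (Fin n → ℝ) →L[ℝ] (Fin n → ℝ)) (N : ℕ) :
    Module.End ℝ (ZMod N → (Fin n → ℝ)) where
  toFun Y := fun i => A (Y i)
  map_add' Y Z := by funext i; simp
  map_smul' c Y := by funext i; simp

theorem pw_apply {n : ℕ} (A : (Fin n → ℝ) →L[ℝ] (Fin n → ℝ)) {N : ℕ}
    (Y : ZMod N → (Fin n → ℝ)) (i : ZMod N) : pw A N Y i = A (Y i) := rfl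

theorem pw_pow_apply {n : ℕ} (A : (Fin n → ℝ) →L[ℝ] (Fin n → ℝ)) {N : ℕ} (k : ℕ)
    (Y : ZMod N → (Fin n → ℝ)) (i : ZMod N) : ((pw A N) ^ k) Y i = (A ^ k) (Y i) := by
  induction k generalizing Y with
  | zero => simp
  | succ k ih =>
    rw [pow_succ, Module.End.mul_apply, ih, pw_apply, pow_succ]
    rfl

theorem aeval_pw_apply {n : ℕ} (A : (Fin n → ℝ) →L[ℝ] (Fin n → ℝ)) {N : ℕ} (p : ℝ[X])
    (Y : ZMod N → (Fin n → ℝ)) (i : ZMod N) : (aeval (pw A N) p) Y i = (aeval A p) (Y i) := by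
  rw [aeval_eq_sum_range, aeval_eq_sum_range, LinearMap.sum_apply, Finset.sum_apply,
    ContinuousLinearMap.sum_apply]
  refine Finset.sum_congr rfl fun k _ => ?_
  rw [LinearMap.smul_apply, Pi.smul_apply, pw_pow_apply]
  rfl

theorem commute_shift_pw {n : ℕ} (A : (Fin n → ℝ) →L[ℝ] (Fin n → ℝ)) (N : ℕ) :
    Commute (shift ℝ (Fin n → ℝ) N) (pw A N) := by
  refine LinearMap.ext fun Y => ?_
  rfl

/-- the quotient operator -/
noncomputable def Rop {n : ℕ} (A : (Fin n → ℝ) →L[ℝ] (Fin n → ℝ)) (q : ℝ[X]) (N : ℕ) :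
    Module.End ℝ (ZMod N → (Fin n → ℝ)) :=
  ∑ k ∈ Finset.range (q.natDegree + 1), q.coeff k •
    ∑ j ∈ Finset.range k, (shift ℝ (Fin n → ℝ) N) ^ j * (pw A N) ^ (k - 1 - j)

theorem Rop_mul {n : ℕ} (A : (Fin n → ℝ) →L[ℝ] (Fin n → ℝ)) (q : ℝ[X]) (N : ℕ) :
    (shift ℝ (Fin n → ℝ) N - pw A N) * Rop A q N
      = aeval (shift ℝ (Fin n → ℝ) N) q - aeval (pw A N) q := by
  rw [Rop, Finset.mul_sum, aeval_eq_sum_range, aeval_eq_sum_range, ← Finset.sum_sub_distrib]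
  refine Finset.sum_congr rfl fun k _ => ?_
  rw [mul_smul_comm, (commute_shift_pw A N).mul_geom_sum₂, smul_sub]

theorem Rop_bound {n : ℕ} (A : (Fin n → ℝ) →L[ℝ] (Fin n → ℝ)) (q : ℝ[X]) {N : ℕ}
    (Y : ZMod N → (Fin n → ℝ)) (M : ℝ) (hM : ∀ i, ‖Y i‖ ≤ M) (i : ZMod N) :
    ‖Rop A q N Y i‖ ≤ (∑ k ∈ Finset.range (q.natDegree + 1), |q.coeff k| *
      ∑ j ∈ Finset.range k, ‖A ^ (k - 1 - j)‖) * M := by
  rw [Rop, LinearMap.sum_apply, Finset.sum_apply, Finset.sum_mul]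
  refine (norm_sum_le _ _).trans (Finset.sum_le_sum fun k _ => ?_)
  rw [LinearMap.smul_apply, Pi.smul_apply, norm_smul, Real.norm_eq_abs, mul_assoc]
  refine mul_le_mul_of_nonneg_left ?_ (abs_nonneg _)
  rw [LinearMap.sum_apply, Finset.sum_apply, Finset.sum_mul]
  refine (norm_sum_le _ _).trans (Finset.sum_le_sum fun j _ => ?_)
  rw [Module.End.mul_apply, shift_pow_apply, pw_pow_apply]
  exact ((A ^ (k - 1 - j)).le_opNorm _).trans (mul_le_mul_of_nonneg_left (hM _) (norm_nonneg _))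

/-- Uniform cyclic shadowing. -/
theorem shadow {n : ℕ} (A : (Fin n → ℝ) →L[ℝ] (Fin n → ℝ)) (q : ℝ[X])
    (hq : ∀ z : ℂ, ‖z‖ = 1 → aeval z q ≠ 0) :
    ∃ K : ℝ, 0 ≤ K ∧ ∀ (N : ℕ), 1 ≤ N → ∀ (e : ℕ → (Fin n → ℝ)) (M : ℝ), (∀ i < N, ‖e i‖ ≤ M) →
    ∃ Δ Y : ℕ → (Fin n → ℝ), Δ N = Δ 0 ∧
      (∀ i < N, A (Δ i) - e i = Δ (i + 1) - (aeval A q) (Y i)) ∧
      (∀ i, ‖Δ i‖ ≤ K * M) ∧ (∀ i, ‖Y i‖ ≤ K * M) := by
  obtain ⟨C, hC, h⟩ := real_poly (n := n) q hq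
  set S : ℝ := ∑ k ∈ Finset.range (q.natDegree + 1), |q.coeff k| *
      ∑ j ∈ Finset.range k, ‖A ^ (k - 1 - j)‖ with hS
  have hS0 : 0 ≤ S := Finset.sum_nonneg fun k _ =>
    mul_nonneg (abs_nonneg _) (Finset.sum_nonneg fun j _ => norm_nonneg _)
  refine ⟨max C (S * C), le_max_of_le_left hC, ?_⟩
  intro N hN e M hM
  haveI : NeZero N := ⟨by omega⟩
  have hM0 : 0 ≤ M := (norm_nonneg _).trans (hM 0 (by omega))
  obtain ⟨Y, hY, hYb⟩ := h N (fun i => e i.val) M (fun i => hM _ (ZMod.val_lt i))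
  have hR := congrArg (fun T => T Y) (Rop_mul A q N)
  simp only [Module.End.mul_apply, LinearMap.sub_apply] at hR
  rw [hY] at hR
  refine ⟨fun i => - (Rop A q N Y (i : ZMod N)), fun i => Y (i : ZMod N), ?_, ?_, ?_, ?_⟩
  · simp
  · intro i hi
    have h1 := congrFun hR (i : ZMod N)
    simp only [Pi.sub_apply, shift_apply, pw_apply, aeval_pw_apply, ZMod.val_cast_of_lt hi] at h1
    push_cast
    rw [map_neg]
    have h2 : e i = Rop A q N Y ((i : ZMod N) + 1) - A (Rop A q N Y (i : ZMod N))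
        + (aeval A q) (Y (i : ZMod N)) := by rw [h1]; abel
    rw [h2]; abel
  · intro i
    rw [norm_neg]
    refine (Rop_bound A q Y (C * M) hYb _).trans ?_
    rw [← mul_assoc]
    exact mul_le_mul_of_nonneg_right (le_max_right _ _) hM0
  · intro i
    exact (hYb _).trans (mul_le_mul_of_nonneg_right (le_max_left _ _) hM0)

end Pool.Agent.Lib.MP_1e8d1a_an.CyclicShadow
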