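import Mathlib
import Pool.Agent.Lib.MP_1e8d1a_an.CyclicShadow

/-!
Correction of pseudo-orbit errors modulo the direction `b` by a small constant vector.
-/

namespace Pool.Agent.Lib.MP_1e8d1a_an.Correction

open Polynomial

variable {n : ℕ}

theorem coeff_bound (b : Fin n → ℝ) (hb : b ≠ 0) (c : ℝ) (w : Fin n → ℝ) (h : w = c • b) :
    |c| ≤ ‖b‖⁻¹ * ‖w‖ := by
  have hb' : 0 < ‖b‖ := norm_pos_iff.mpr hb
  rw [h, norm_smul, Real.norm_eq_abs]
  field_simp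
  exact le_rfl

/-- Transversally hyperbolic case: errors bounded in the supremum sense. -/
theorem hyp_case (A : (Fin n → ℝ) →L[ℝ] (Fin n → ℝ)) (b : Fin n → ℝ) (hb : b ≠ 0) (q : ℝ[X])
    (hq : ∀ z : ℂ, ‖z‖ = 1 → aeval z q ≠ 0) (hA : ∀ x, ∃ c : ℝ, (aeval A q) x = c • b) :
    ∃ K : ℝ, 0 ≤ K ∧ ∀ (N : ℕ), 1 ≤ N → ∀ (e : ℕ → (Fin n → ℝ)) (M : ℝ), (∀ i < N, ‖e i‖ ≤ M) →
    ∃ (D : ℕ → (Fin n → ℝ)) (u : Fin n → ℝ) (c : ℕ → ℝ), D 0 = 0 ∧ D N = 0 ∧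
      (∀ i < N, A (D i) + u - e i = D (i + 1) + c i • b) ∧
      (∀ i, ‖D i‖ ≤ K * M) ∧ ‖u‖ ≤ K * M ∧ (∀ i, |c i| ≤ K * M) := by
  obtain ⟨K0, hK0, h⟩ := CyclicShadow.shadow A q hq
  choose γ hγ using hA
  set K1 : ℝ := max (2 * K0) (max ((‖A‖ + 1) * K0) (‖b‖⁻¹ * (‖aeval A q‖ * K0))) with hK1
  refine ⟨K1, le_max_of_le_left (by positivity), ?_⟩
  intro N hN e M hM
  have hM0 : 0 ≤ M := (norm_nonneg _).trans (hM 0 (by omega))
  obtain ⟨Δ, Y, hΔ, hrel, hΔb, hYb⟩ := h N hN e M hM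
  refine ⟨fun i => Δ i - Δ 0, A (Δ 0) - Δ 0, fun i => - γ (Y i), by simp, by simp [hΔ], ?_, ?_, ?_, ?_⟩
  · intro i hi
    have h1 := hrel i hi
    have h2 : e i = A (Δ i) - Δ (i + 1) + (aeval A q) (Y i) := by
      rw [← sub_eq_zero] at h1 ⊢
      rw [← neg_eq_zero, ← h1]; abel
    have h3 : (-γ (Y i)) • b = - (aeval A q) (Y i) := by rw [neg_smul, ← hγ]
    show A (Δ i - Δ 0) + (A (Δ 0) - Δ 0) - e i = Δ (i + 1) - Δ 0 + (-γ (Y i)) • b
    rw [h3, h2, map_sub]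
    abel
  · intro i
    calc ‖Δ i - Δ 0‖ ≤ ‖Δ i‖ + ‖Δ 0‖ := norm_sub_le _ _
      _ ≤ K0 * M + K0 * M := add_le_add (hΔb i) (hΔb 0)
      _ = (2 * K0) * M := by ring
      _ ≤ K1 * M := mul_le_mul_of_nonneg_right (le_max_left _ _) hM0
  · calc ‖A (Δ 0) - Δ 0‖ ≤ ‖A (Δ 0)‖ + ‖Δ 0‖ := norm_sub_le _ _
      _ ≤ ‖A‖ * ‖Δ 0‖ + ‖Δ 0‖ := by gcongr; exact A.le_opNorm _
      _ ≤ ‖A‖ * (K0 * M) + K0 * M := by gcongr <;> exact hΔb 0
      _ = ((‖A‖ + 1) * K0) * M := by ring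
      _ ≤ K1 * M := mul_le_mul_of_nonneg_right (le_max_of_le_right (le_max_left _ _)) hM0
  · intro i
    rw [abs_neg]
    calc |γ (Y i)| ≤ ‖b‖⁻¹ * ‖(aeval A q) (Y i)‖ := coeff_bound b hb _ _ (hγ (Y i))
      _ ≤ ‖b‖⁻¹ * (‖aeval A q‖ * ‖Y i‖) := by gcongr; exact (aeval A q).le_opNorm _
      _ ≤ ‖b‖⁻¹ * (‖aeval A q‖ * (K0 * M)) := by gcongr; exact hYb i
      _ = (‖b‖⁻¹ * (‖aeval A q‖ * K0)) * M := by ring
      _ ≤ K1 * M := mul_le_mul_of_nonneg_right (le_max_of_le_right (le_max_right _ _)) hM0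

/-- General case: total error small. -/
theorem gen_case (A : (Fin n → ℝ) →L[ℝ] (Fin n → ℝ)) (b : Fin n → ℝ) (hb : b ≠ 0) (q : ℝ[X])
    (hq : ∀ z : ℂ, ‖z‖ = 1 → aeval z q ≠ 0)
    (hA : ∀ x, ∃ c : ℝ, (aeval A ((X - 1) * q)) x = c • b) :
    ∃ K : ℝ, 0 ≤ K ∧ ∀ (N : ℕ), 1 ≤ N → ∀ (e : ℕ → (Fin n → ℝ)) (M : ℝ),
      (∑ i ∈ Finset.range N, ‖e i‖ ≤ M) →
    ∃ (D : ℕ → (Fin n → ℝ)) (u : Fin n → ℝ) (c : ℕ → ℝ), D 0 = 0 ∧ D N = 0 ∧
      (∀ i < N, A (D i) + u - e i = D (i + 1) + c i • b) ∧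
      (∀ i ≤ N, ‖D i‖ ≤ K * M) ∧ ‖u‖ ≤ K * M ∧ (∀ i < N, |c i| ≤ K * M) := by
  obtain ⟨K0, hK0, h⟩ := CyclicShadow.shadow A q hq
  choose γ hγ using hA
  -- value of q at one
  set q1 : ℝ := q.eval 1 with hq1
  have hq1' : q1 ≠ 0 := by
    have := hq 1 (by simp)
    intro h0
    apply this
    have h2 : aeval (1 : ℂ) q = ((q.eval 1 : ℝ) : ℂ) := by
      have := Polynomial.aeval_algebraMap_apply ℂ (1 : ℝ) q
      simpa using this
    rw [h2, ← hq1, h0]; simp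
  obtain ⟨g, hg⟩ : ∃ g : ℝ[X], q = Polynomial.C q1 + (X - 1) * g := by
    have h1 : (X - Polynomial.C (1 : ℝ)) ∣ q - Polynomial.C (q.eval 1) :=
      Polynomial.X_sub_C_dvd_sub_C_eval
    obtain ⟨g, hg⟩ := h1
    refine ⟨g, ?_⟩
    rw [Polynomial.C_1] at hg
    rw [hq1, ← hg]; ring
  -- the two complementary operators
  set P1 : (Fin n → ℝ) →L[ℝ] (Fin n → ℝ) := q1⁻¹ • aeval A q with hP1
  set P2 : (Fin n → ℝ) →L[ℝ] (Fin n → ℝ) := 1 - P1 with hP2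
  have hcomm : ∀ x, A (P2 x) = P2 (A x) := by
    intro x
    have : Commute A P2 := by
      rw [hP2, hP1]
      refine Commute.sub_right (Commute.one_right _) (Commute.smul_right ?_ _)
      have := (Commute.all (X : ℝ[X]) q).map (aeval A)
      simpa using this
    exact congrArg (fun T : (Fin n → ℝ) →L[ℝ] (Fin n → ℝ) => T x) this.eq
  have hA1 : ∀ x, A (P1 x) - P1 x = (q1⁻¹ * γ x) • b := by
    intro x
    have h1 := hγ x
    rw [map_mul, map_sub, aeval_X, map_one] at h1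
    have h2 : A ((aeval A q) x) - (aeval A q) x = γ x • b := by
      rw [← h1]; rfl
    rw [hP1, mul_smul, ← h2]
    simp [smul_sub]
  have hA2 : ∀ x, (aeval A q) (P2 x) = (-(q1⁻¹ * γ ((aeval A g) x))) • b := by
    intro x
    have h1 := hγ ((aeval A g) x)
    have h4 : aeval A q = q1 • (1 : (Fin n → ℝ) →L[ℝ] (Fin n → ℝ)) + aeval A ((X - 1) * g) := by
      conv_lhs => rw [hg]
      rw [map_add, aeval_C, Algebra.algebraMap_eq_smul_one]
    have h5 : P2 x = - (q1⁻¹ • (aeval A ((X - 1) * g)) x) := by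
      have h50 : P2 x = x - q1⁻¹ • (aeval A q) x := by rw [hP2, hP1]; rfl
      have h51 : (aeval A q) x = q1 • x + (aeval A ((X - 1) * g)) x := by
        conv_lhs => rw [h4]
        rfl
      rw [h50, h51, smul_add, smul_smul, inv_mul_cancel₀ hq1', one_smul]
      abel
    have h6 : (aeval A q) ((aeval A ((X - 1) * g)) x) = (aeval A ((X - 1) * q)) ((aeval A g) x) := by
      have : aeval A q * aeval A ((X - 1) * g) = aeval A ((X - 1) * q) * aeval A g := by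
        rw [← map_mul, ← map_mul]
        congr 1
        ring
      exact congrArg (fun T : (Fin n → ℝ) →L[ℝ] (Fin n → ℝ) => T x) this
    rw [h5, map_neg, map_smul, h6, h1, neg_smul, mul_smul]
  set B1 : ℝ := ‖b‖⁻¹ * (‖A‖ * ‖P1‖ + ‖P1‖) with hB1
  set K1 : ℝ := 2 * ‖P1‖ + ‖P1‖ + ‖P2‖ * (2 * K0) + (‖A‖ + 1) * (‖P2‖ * K0) + 2 * B1
    + ‖b‖⁻¹ * (‖aeval A q‖ * (‖P2‖ * K0)) with hK1
  have hB10 : 0 ≤ B1 := by positivity
  refine ⟨K1, by positivity, ?_⟩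
  intro N hN e M hM
  have hM0 : 0 ≤ M := (Finset.sum_nonneg fun i _ => norm_nonneg _).trans hM
  have hNpos : (0 : ℝ) < N := by exact_mod_cast hN
  have heM : ∀ i < N, ‖e i‖ ≤ M := fun i hi =>
    (Finset.single_le_sum (fun j _ => norm_nonneg (e j)) (Finset.mem_range.mpr hi)).trans hM
  obtain ⟨Δ, Y, hΔ, hrel, hΔb, hYb⟩ := h N hN e M heM
  set Stot : Fin n → ℝ := ∑ j ∈ Finset.range N, e j with hStot
  have hStotb : ‖Stot‖ ≤ M := (norm_sum_le _ _).trans hM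
  set w : ℕ → (Fin n → ℝ) := fun i => ((i : ℝ) / N) • Stot - ∑ j ∈ Finset.range i, e j with hw
  have hwb : ∀ i ≤ N, ‖w i‖ ≤ 2 * M := by
    intro i hi
    have h1 : ‖((i : ℝ) / N) • Stot‖ ≤ M := by
      rw [norm_smul, Real.norm_eq_abs, abs_of_nonneg (by positivity)]
      have : (i : ℝ) / N ≤ 1 := by
        rw [div_le_one hNpos]; exact_mod_cast hi
      calc (i : ℝ) / N * ‖Stot‖ ≤ 1 * M := mul_le_mul this hStotb (norm_nonneg _) zero_le_one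
        _ = M := one_mul _
    have h2 : ‖∑ j ∈ Finset.range i, e j‖ ≤ M := by
      refine (norm_sum_le _ _).trans (le_trans ?_ hM)
      exact Finset.sum_le_sum_of_subset_of_nonneg (Finset.range_mono hi)
        (fun j _ _ => norm_nonneg _)
    calc ‖w i‖ ≤ ‖((i : ℝ) / N) • Stot‖ + ‖∑ j ∈ Finset.range i, e j‖ := norm_sub_le _ _
      _ ≤ 2 * M := by linarith
  have hwsucc : ∀ i, w (i + 1) = w i + (N : ℝ)⁻¹ • Stot - e i := by
    intro i
    simp only [hw, Finset.sum_range_succ]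
    push_cast
    rw [add_div, add_smul, one_div]
    abel
  refine ⟨fun i => P1 (w i) + P2 (Δ i - Δ 0),
    (N : ℝ)⁻¹ • P1 Stot + (A (P2 (Δ 0)) - P2 (Δ 0)),
    fun i => q1⁻¹ * γ (w i) + q1⁻¹ * γ ((aeval A g) (Y i)), ?_, ?_, ?_, ?_, ?_, ?_⟩
  · simp [hw]
  · have : w N = 0 := by
      simp only [hw]
      rw [div_self hNpos.ne', one_smul, hStot, sub_self]
    simp [this, hΔ]
  · intro i hi
    have h1 := hA1 (w i)
    have h2 := congrArg P2 (hrel i hi)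
    rw [map_sub, map_sub] at h2
    have h3 : P2 ((aeval A q) (Y i)) = (aeval A q) (P2 (Y i)) := by
      have : Commute P2 (aeval A q) := by
        rw [hP2, hP1]
        exact Commute.sub_left (Commute.one_left _) (Commute.smul_left (Commute.refl _) _)
      exact congrArg (fun T : (Fin n → ℝ) →L[ℝ] (Fin n → ℝ) => T (Y i)) this.eq
    rw [h3, hA2] at h2
    have h4 : e i = P1 (e i) + P2 (e i) := by
      rw [hP2]; simp
    have h5 : A (P1 (w i)) = P1 (w i) + (q1⁻¹ * γ (w i)) • b := by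
      rw [← h1]; abel
    have h6 : P2 (e i) = P2 (A (Δ i)) - P2 (Δ (i + 1)) - (q1⁻¹ * γ ((aeval A g) (Y i))) • b := by
      rw [neg_smul] at h2
      rw [← sub_eq_zero] at h2 ⊢
      rw [← neg_eq_zero, ← h2]; abel
    show A (P1 (w i) + P2 (Δ i - Δ 0)) + ((N : ℝ)⁻¹ • P1 Stot + (A (P2 (Δ 0)) - P2 (Δ 0))) - e i
      = P1 (w (i + 1)) + P2 (Δ (i + 1) - Δ 0)
        + (q1⁻¹ * γ (w i) + q1⁻¹ * γ ((aeval A g) (Y i))) • b
    rw [h4, h6, hwsucc i]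
    simp only [map_add, map_sub, map_smul]
    rw [h5, hcomm, hcomm, add_smul]
    abel
  · intro i hi
    calc ‖P1 (w i) + P2 (Δ i - Δ 0)‖ ≤ ‖P1 (w i)‖ + ‖P2 (Δ i - Δ 0)‖ := norm_add_le _ _
      _ ≤ ‖P1‖ * ‖w i‖ + ‖P2‖ * ‖Δ i - Δ 0‖ := by
          gcongr
          · exact P1.le_opNorm _
          · exact P2.le_opNorm _
      _ ≤ ‖P1‖ * (2 * M) + ‖P2‖ * (K0 * M + K0 * M) := by
          gcongr
          · exact hwb i hi
          · exact (norm_sub_le _ _).trans (add_le_add (hΔb i) (hΔb 0))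
      _ = (2 * ‖P1‖ + ‖P2‖ * (2 * K0)) * M := by ring
      _ ≤ K1 * M := by
          refine mul_le_mul_of_nonneg_right ?_ hM0
          rw [hK1]
          have e1 : 0 ≤ ‖P1‖ := norm_nonneg _
          have e2 : 0 ≤ (‖A‖ + 1) * (‖P2‖ * K0) := by positivity
          have e3 : 0 ≤ ‖b‖⁻¹ * (‖aeval A q‖ * (‖P2‖ * K0)) := by positivity
          linarith
  · have hNinv : (N : ℝ)⁻¹ ≤ 1 := inv_le_one_of_one_le₀ (by exact_mod_cast hN)
    calc ‖(N : ℝ)⁻¹ • P1 Stot + (A (P2 (Δ 0)) - P2 (Δ 0))‖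
        ≤ ‖(N : ℝ)⁻¹ • P1 Stot‖ + (‖A (P2 (Δ 0))‖ + ‖P2 (Δ 0)‖) :=
          (norm_add_le _ _).trans (by gcongr; exact norm_sub_le _ _)
      _ ≤ 1 * (‖P1‖ * M) + (‖A‖ * (‖P2‖ * (K0 * M)) + ‖P2‖ * (K0 * M)) := by
          rw [norm_smul, Real.norm_eq_abs, abs_of_nonneg (by positivity : (0:ℝ) ≤ (N:ℝ)⁻¹)]
          gcongr
          · exact (P1.le_opNorm _).trans (by gcongr)
          · exact (A.le_opNorm _).trans (by
              gcongr
              exact (P2.le_opNorm _).trans (by gcongr; exact hΔb 0))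
          · exact (P2.le_opNorm _).trans (by gcongr; exact hΔb 0)
      _ = (‖P1‖ + (‖A‖ + 1) * (‖P2‖ * K0)) * M := by ring
      _ ≤ K1 * M := by
          refine mul_le_mul_of_nonneg_right ?_ hM0
          rw [hK1]
          have e1 : 0 ≤ ‖P1‖ := norm_nonneg _
          have e2 : 0 ≤ ‖P2‖ * (2 * K0) := by positivity
          have e3 : 0 ≤ ‖b‖⁻¹ * (‖aeval A q‖ * (‖P2‖ * K0)) := by positivity
          linarith
  · intro i hi
    have h1 : |q1⁻¹ * γ (w i)| ≤ 2 * B1 * M := by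
      have := coeff_bound b hb _ _ (hA1 (w i))
      refine this.trans ?_
      calc ‖b‖⁻¹ * ‖A (P1 (w i)) - P1 (w i)‖
          ≤ ‖b‖⁻¹ * (‖A (P1 (w i))‖ + ‖P1 (w i)‖) := by gcongr; exact norm_sub_le _ _
        _ ≤ ‖b‖⁻¹ * (‖A‖ * (‖P1‖ * (2 * M)) + ‖P1‖ * (2 * M)) := by
            gcongr
            · exact (A.le_opNorm _).trans (by
                gcongr
                exact (P1.le_opNorm _).trans (by gcongr; exact hwb i hi.le))
            · exact (P1.le_opNorm _).trans (by gcongr; exact hwb i hi.le)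
        _ = 2 * B1 * M := by rw [hB1]; ring
    have h2 : |q1⁻¹ * γ ((aeval A g) (Y i))| ≤ ‖b‖⁻¹ * (‖aeval A q‖ * (‖P2‖ * K0)) * M := by
      have := coeff_bound b hb _ _ (hA2 (Y i))
      rw [abs_neg] at this
      refine this.trans ?_
      calc ‖b‖⁻¹ * ‖(aeval A q) (P2 (Y i))‖
          ≤ ‖b‖⁻¹ * (‖aeval A q‖ * (‖P2‖ * (K0 * M))) := by
            gcongr
            exact ((aeval A q).le_opNorm _).trans (by
              gcongr
              exact (P2.le_opNorm _).trans (by gcongr; exact hYb i))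
        _ = ‖b‖⁻¹ * (‖aeval A q‖ * (‖P2‖ * K0)) * M := by ring
    calc |q1⁻¹ * γ (w i) + q1⁻¹ * γ ((aeval A g) (Y i))|
        ≤ |q1⁻¹ * γ (w i)| + |q1⁻¹ * γ ((aeval A g) (Y i))| := abs_add_le _ _
      _ ≤ 2 * B1 * M + ‖b‖⁻¹ * (‖aeval A q‖ * (‖P2‖ * K0)) * M := add_le_add h1 h2
      _ = (2 * B1 + ‖b‖⁻¹ * (‖aeval A q‖ * (‖P2‖ * K0))) * M := by ring
      _ ≤ K1 * M := by
          refine mul_le_mul_of_nonneg_right ?_ hM0
          rw [hK1]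
          have e1 : 0 ≤ ‖P1‖ := norm_nonneg _
          have e2 : 0 ≤ ‖P2‖ * (2 * K0) := by positivity
          have e3 : 0 ≤ (‖A‖ + 1) * (‖P2‖ * K0) := by positivity
          linarith

end Pool.Agent.Lib.MP_1e8d1a_an.Correction
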