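import Mathlib

/-!
Core of the leafwise closing argument: an intermediate value argument along the
direction `b` for maps `F x = A x + a + φ x • b`.
-/

namespace Pool.Agent.Lib.MP_1e8d1a_an.LeafCore

open Function

variable {E : Type*} [NormedAddCommGroup E] [NormedSpace ℝ E]

/-- coordinates along `b` of the corrected orbit -/
noncomputable def sseq (lam : ℝ) (φ : E → ℝ) (b : E) (z D : ℕ → E) (c : ℕ → ℝ) (t : ℝ) : ℕ → ℝ
  | 0 => 0
  | (i + 1) =>
      lam * sseq lam φ b z D c t i
        + φ (z i + D i + (sseq lam φ b z D c t i) • b) - φ (z i) + c i + t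

theorem sseq_continuous (lam : ℝ) (φ : E → ℝ) (hφ : Continuous φ) (b : E) (z D : ℕ → E)
    (c : ℕ → ℝ) (i : ℕ) : Continuous fun t => sseq lam φ b z D c t i := by
  induction i with
  | zero => simpa [sseq] using continuous_const
  | succ i ih =>
    simp only [sseq]
    fun_prop

theorem sseq_iter (A : E →ₗ[ℝ] E) (a b : E) (lam : ℝ) (hAb : A b = lam • b) (φ : E → ℝ)
    (N : ℕ) (z D e : ℕ → E) (c : ℕ → ℝ) (u : E)
    (hz : ∀ i < N, z (i + 1) = A (z i) + a + φ (z i) • b + e i)
    (hD : ∀ i < N, A (D i) + u - e i = D (i + 1) + c i • b) (t : ℝ) :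
    ∀ i ≤ N, (fun x => A x + a + φ x • b + (u + t • b))^[i] (z 0 + D 0)
      = z i + D i + (sseq lam φ b z D c t i) • b := by
  intro i
  induction i with
  | zero => intro _; simp [sseq]
  | succ i ih =>
    intro hi
    have hi' : i < N := hi
    rw [Function.iterate_succ_apply', ih hi'.le]
    have h1 := hz i hi'
    have h2 := hD i hi'
    simp only [sseq, map_add, map_smul, hAb]
    rw [h1]
    have h3 : A (D i) = D (i + 1) + c i • b + e i - u := by
      rw [← h2]; abel
    rw [h3]
    module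

/-- The intermediate value argument. -/
theorem core (A : E →ₗ[ℝ] E) (a b : E) (lam : ℝ) (hAb : A b = lam • b) (φ : E → ℝ)
    (hφ : Continuous φ) (L : ℝ) (hL : ∀ x y, |φ x - φ y| ≤ L * ‖x - y‖)
    (hmono : ∀ x, Monotone fun s : ℝ => lam * s + φ (x + s • b))
    (N : ℕ) (hN : 1 ≤ N) (z D e : ℕ → E) (c : ℕ → ℝ) (u : E)
    (hz : ∀ i < N, z (i + 1) = A (z i) + a + φ (z i) • b + e i)
    (hD : ∀ i < N, A (D i) + u - e i = D (i + 1) + c i • b)
    (η : ℝ) (hη : 0 < η) (hc : ∀ i < N, |c i| + L * ‖D i‖ ≤ η) :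
    ∃ t : ℝ, |t| ≤ 2 * η ∧
      (fun x => A x + a + φ x • b + (u + t • b))^[N] (z 0 + D 0) = z N + D N := by
  -- monotone step
  have step : ∀ t i, sseq lam φ b z D c t (i + 1) =
      lam * sseq lam φ b z D c t i
        + φ (z i + D i + (sseq lam φ b z D c t i) • b) - φ (z i) + c i + t := fun t i => rfl
  have key : ∀ i < N, |φ (z i + D i) - φ (z i)| + |c i| ≤ η := by
    intro i hi
    have h := hL (z i + D i) (z i)
    have h2 : ‖z i + D i - z i‖ = ‖D i‖ := by congr 1; abel
    rw [h2] at h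
    linarith [hc i hi]
  have hpos : ∀ i ≤ N, 0 ≤ sseq lam φ b z D c (2 * η) i ∧ (1 ≤ i → η ≤ sseq lam φ b z D c (2 * η) i) := by
    intro i
    induction i with
    | zero => intro _; simp [sseq]
    | succ i ih =>
      intro hi
      have hi' : i < N := hi
      have h0 := (ih hi'.le).1
      have hm := hmono (z i + D i) h0
      simp only [mul_zero, zero_smul, add_zero, zero_add] at hm
      have hk := key i hi'
      have hk1 : -|φ (z i + D i) - φ (z i)| ≤ φ (z i + D i) - φ (z i) := neg_abs_le _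
      have hk2 : -|c i| ≤ c i := neg_abs_le _
      have : η ≤ sseq lam φ b z D c (2 * η) (i + 1) := by
        rw [step]; linarith
      exact ⟨by linarith, fun _ => this⟩
  have hneg : ∀ i ≤ N, sseq lam φ b z D c (-(2 * η)) i ≤ 0 ∧
      (1 ≤ i → sseq lam φ b z D c (-(2 * η)) i ≤ -η) := by
    intro i
    induction i with
    | zero => intro _; simp [sseq]
    | succ i ih =>
      intro hi
      have hi' : i < N := hi
      have h0 := (ih hi'.le).1
      have hm := hmono (z i + D i) h0
      simp only [mul_zero, zero_smul, add_zero, zero_add] at hm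
      have hk := key i hi'
      have hk1 : φ (z i + D i) - φ (z i) ≤ |φ (z i + D i) - φ (z i)| := le_abs_self _
      have hk2 : c i ≤ |c i| := le_abs_self _
      have : sseq lam φ b z D c (-(2 * η)) (i + 1) ≤ -η := by
        rw [step]; linarith
      exact ⟨by linarith, fun _ => this⟩
  have hcont : ContinuousOn (fun t => sseq lam φ b z D c t N) (Set.Icc (-(2 * η)) (2 * η)) :=
    (sseq_continuous lam φ hφ b z D c N).continuousOn
  have hivt := intermediate_value_Icc (by linarith : -(2 * η) ≤ 2 * η) hcont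
  have hmem : (0 : ℝ) ∈ Set.Icc (sseq lam φ b z D c (-(2 * η)) N) (sseq lam φ b z D c (2 * η) N) :=
    ⟨(hneg N le_rfl).1, (hpos N le_rfl).1⟩
  obtain ⟨t, ht, ht0⟩ := hivt hmem
  refine ⟨t, abs_le.mpr ht, ?_⟩
  rw [sseq_iter A a b lam hAb φ N z D e c u hz hD t N le_rfl]
  simp only at ht0
  rw [ht0]; simp

end Pool.Agent.Lib.MP_1e8d1a_an.LeafCore
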