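import Mathlib

/-!
The torus `ℝⁿ/ℤⁿ`, its `C^r` diffeomorphisms (described by lifts), the `C^r` topology,
recurrence notions.
-/

namespace Pool.Agent.Lib.MP_1e8d1a_an.Torus

/-- The torus `ℝⁿ/ℤⁿ`. -/
abbrev Tor (n : ℕ) : Type := Fin n → UnitAddCircle

/-- The covering projection `ℝⁿ → ℝⁿ/ℤⁿ`. -/
def proj {n : ℕ} (x : Fin n → ℝ) : Tor n := fun i => (x i : UnitAddCircle)

/-- `F : ℝⁿ → ℝⁿ` is a lift of the map `f` of the torus. -/
def IsLift {n : ℕ} (F : (Fin n → ℝ) → (Fin n → ℝ)) (f : Tor n → Tor n) : Prop :=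
  ∀ x, proj (F x) = f (proj x)

/-- `f` is a `C^r` diffeomorphism of the torus: `f` and its inverse have `C^r` lifts. -/
def IsDiffeo {n : ℕ} (r : ℕ∞) (f : Tor n ≃ₜ Tor n) : Prop :=
  (∃ F : (Fin n → ℝ) → (Fin n → ℝ), ContDiff ℝ r F ∧ IsLift F f) ∧
    (∃ G : (Fin n → ℝ) → (Fin n → ℝ), ContDiff ℝ r G ∧ IsLift G f.symm)

/-- `f` and `g` have `C^K` lifts whose derivatives of every order `k ≤ K` differ everywhere
by less than `δ`. For finite `K ≤ r` and `δ > 0` these relations give the basic `C^r`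
neighbourhoods of a `C^r` diffeomorphism `f`. -/
def CrClose {n : ℕ} (K : ℕ) (δ : ℝ) (f g : Tor n → Tor n) : Prop :=
  ∃ F G : (Fin n → ℝ) → (Fin n → ℝ), ContDiff ℝ K F ∧ ContDiff ℝ K G ∧ IsLift F f ∧ IsLift G g ∧
    ∀ k ≤ K, ∀ x, ‖iteratedFDeriv ℝ k G x - iteratedFDeriv ℝ k F x‖ < δ

/-- The diffeomorphism `y ↦ f y + v`. -/
def addTrans {n : ℕ} (f : Tor n ≃ₜ Tor n) (v : Fin n → ℝ) : Tor n ≃ₜ Tor n :=
  f.trans (Homeomorph.addRight (proj v))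

/-- `x` is nonwandering for `f`. -/
def Nonwandering {n : ℕ} (f : Tor n → Tor n) (x : Tor n) : Prop :=
  ∀ U : Set (Tor n), IsOpen U → x ∈ U → ∃ m : ℕ, 1 ≤ m ∧ (f^[m] '' U ∩ U).Nonempty

/-- `x` is recurrent for `f` in the sense of the problem: `m ↦ f^m x` is not a
homeomorphism of `ℤ` onto its image. -/
def Recurrent {n : ℕ} (f : Tor n ≃ₜ Tor n) (x : Tor n) : Prop :=
  ¬ Topology.IsEmbedding (fun m : ℤ => (f ^ m) x)

/-- `x` is strongly chain recurrent: there are pseudo-orbits from `x` to `x` with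
arbitrarily small total error. -/
def StrongChainRecurrent {n : ℕ} (f : Tor n → Tor n) (x : Tor n) : Prop :=
  ∀ ε : ℝ, 0 < ε → ∃ N : ℕ, 1 ≤ N ∧ ∃ y : ℕ → Tor n, y 0 = x ∧ y N = x ∧
    ∑ i ∈ Finset.range N, dist (f (y i)) (y (i + 1)) < ε

/-- `x` is chain recurrent. -/
def ChainRecurrent {n : ℕ} (f : Tor n → Tor n) (x : Tor n) : Prop :=
  ∀ ε : ℝ, 0 < ε → ∃ N : ℕ, 1 ≤ N ∧ ∃ y : ℕ → Tor n, y 0 = x ∧ y N = x ∧
    ∀ i < N, dist (f (y i)) (y (i + 1)) < ε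

end Pool.Agent.Lib.MP_1e8d1a_an.Torus
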