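import Mathlib
import Pool.Agent.Lib.MP_1e8d1a_an.TorusDefs

/-!
Basic facts on the torus `ℝⁿ/ℤⁿ` and its diffeomorphisms.
-/

namespace Pool.Agent.Lib.MP_1e8d1a_an.Torus

variable {n : ℕ}

theorem proj_add (x y : Fin n → ℝ) : proj (x + y) = proj x + proj y := by
  funext i; simp [proj]

theorem proj_sub (x y : Fin n → ℝ) : proj (x - y) = proj x - proj y := by
  funext i; simp [proj]

theorem proj_surj (y : Tor n) : ∃ x : Fin n → ℝ, proj x = y := by
  have h : ∀ i, ∃ t : ℝ, (t : UnitAddCircle) = y i := fun i => QuotientAddGroup.mk_surjective (y i)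
  choose t ht using h
  exact ⟨t, funext ht⟩

theorem continuous_proj : Continuous (proj : (Fin n → ℝ) → Tor n) := by
  refine continuous_pi fun i => ?_
  exact (AddCircle.continuous_mk' (1 : ℝ)).comp (continuous_apply i)

/-- `proj x = proj y` iff `x - y` is an integer vector -/
theorem proj_eq_iff (x y : Fin n → ℝ) : proj x = proj y ↔ ∃ k : Fin n → ℤ, ∀ i, x i = y i + k i := by
  constructor
  · intro h
    have h1 : ∀ i, ∃ k : ℤ, x i = y i + k := by
      intro i
      have h2 : ((x i : ℝ) : UnitAddCircle) = (y i : ℝ) := congrFun h i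
      have h3 : ((x i - y i : ℝ) : UnitAddCircle) = 0 := by
        rw [AddCircle.coe_sub, h2, sub_self]
      obtain ⟨k, hk⟩ := (AddCircle.coe_eq_zero_iff (1 : ℝ)).mp h3
      refine ⟨k, ?_⟩
      simp only [zsmul_eq_mul, mul_one] at hk
      linarith
    choose k hk using h1
    exact ⟨k, hk⟩
  · rintro ⟨k, hk⟩
    funext i
    simp only [proj]
    rw [hk i]
    simp

/-- points of the torus near `proj a` lift near `a` -/
theorem lift_near (a : Fin n → ℝ) (y : Tor n) :
    ∃ w : Fin n → ℝ, proj w = y ∧ ‖w - a‖ ≤ dist (proj a) y := by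
  have h : ∀ i, ∃ t : ℝ, (t : UnitAddCircle) = y i ∧ |t - a i| ≤ dist (proj a i) (y i) := by
    intro i
    obtain ⟨t, ht⟩ := QuotientAddGroup.mk_surjective (y i)
    have ht' : (t : UnitAddCircle) = y i := ht
    refine ⟨t - round (t - a i), ?_, ?_⟩
    · rw [← ht']; simp
    · rw [← ht', dist_comm, dist_eq_norm]
      simp only [proj]
      rw [← AddCircle.coe_sub, UnitAddCircle.norm_eq]
      apply le_of_eq
      congr 1
      ring
  choose t ht1 ht2 using h
  refine ⟨t, funext ht1, ?_⟩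
  rw [pi_norm_le_iff_of_nonneg dist_nonneg]
  intro i
  rw [Pi.sub_apply, Real.norm_eq_abs]
  exact (ht2 i).trans (dist_le_pi_dist (proj a) y i)

theorem dist_proj_le (a w : Fin n → ℝ) : dist (proj a) (proj w) ≤ ‖a - w‖ := by
  rw [dist_pi_le_iff (norm_nonneg _)]
  intro i
  rw [dist_eq_norm]
  simp only [proj]
  rw [← AddCircle.coe_sub]
  refine le_trans ?_ (norm_le_pi_norm (a - w) i)
  rw [UnitAddCircle.norm_eq, Pi.sub_apply, Real.norm_eq_abs]
  exact round_le (a i - w i) 0 |>.trans (by simp)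

theorem lift_iterate {F : (Fin n → ℝ) → (Fin n → ℝ)} {f : Tor n → Tor n} (h : IsLift F f)
    (N : ℕ) (x : Fin n → ℝ) : proj (F^[N] x) = f^[N] (proj x) := by
  induction N generalizing x with
  | zero => rfl
  | succ N ih => rw [Function.iterate_succ_apply, Function.iterate_succ_apply, ih, h]

/-- lifting a pseudo-orbit -/
theorem lift_chain {F : (Fin n → ℝ) → (Fin n → ℝ)} {f : Tor n → Tor n} (h : IsLift F f)
    (y : ℕ → Tor n) (x : Fin n → ℝ) (hx : proj x = y 0) :
    ∃ z : ℕ → (Fin n → ℝ), z 0 = x ∧ (∀ i, proj (z i) = y i) ∧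
      ∀ i, ‖z (i + 1) - F (z i)‖ ≤ dist (f (y i)) (y (i + 1)) := by
  have hstep : ∀ (i : ℕ) (a : Fin n → ℝ), ∃ w : Fin n → ℝ, proj w = y (i + 1) ∧
      ‖w - F a‖ ≤ dist (proj (F a)) (y (i + 1)) := fun i a => lift_near _ _
  choose g hg1 hg2 using hstep
  let z : ℕ → (Fin n → ℝ) := fun i => Nat.rec x (fun i a => g i a) i
  have hz0 : z 0 = x := rfl
  have hzs : ∀ i, z (i + 1) = g i (z i) := fun i => rfl
  have hp : ∀ i, proj (z i) = y i := by
    intro i
    cases i with
    | zero => rw [hz0, hx]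
    | succ i => rw [hzs, hg1]
  refine ⟨z, hz0, hp, fun i => ?_⟩
  rw [hzs]
  refine (hg2 i (z i)).trans ?_
  rw [h, hp]

theorem isDiffeo_addTrans {r : ℕ∞} {f : Tor n ≃ₜ Tor n} (hf : IsDiffeo r f) (v : Fin n → ℝ) :
    IsDiffeo r (addTrans f v) := by
  obtain ⟨⟨F, hF, hFl⟩, ⟨G, hG, hGl⟩⟩ := hf
  refine ⟨⟨fun x => F x + v, hF.add contDiff_const, ?_⟩, ⟨fun x => G (x - v), ?_, ?_⟩⟩
  · intro x
    rw [proj_add, hFl]
    rfl
  · exact hG.comp (contDiff_id.sub contDiff_const)
  · intro x
    rw [hGl, proj_sub]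
    show f.symm (proj x - proj v) = f.symm (proj x + -proj v)
    rw [sub_eq_add_neg]

theorem crClose_addTrans {f : Tor n ≃ₜ Tor n} {F : (Fin n → ℝ) → (Fin n → ℝ)} {K : ℕ}
    (hFc : ContDiff ℝ K F) (hF : IsLift F f) (v : Fin n → ℝ) (δ : ℝ) (hv : ‖v‖ < δ) :
    CrClose K δ f (addTrans f v) := by
  have hδ : 0 < δ := (norm_nonneg _).trans_lt hv
  refine ⟨F, fun x => F x + v, hFc, hFc.add contDiff_const, hF, ?_, ?_⟩
  · intro x
    rw [proj_add, hF]
    rfl
  · intro k _ x
    rcases k with _ | k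
    · rw [iteratedFDeriv_zero_eq_comp, iteratedFDeriv_zero_eq_comp, Function.comp_apply,
        Function.comp_apply, ← map_sub, LinearIsometryEquiv.norm_map]
      simpa using hv
    · rw [iteratedFDeriv_succ_eq_comp_right, iteratedFDeriv_succ_eq_comp_right]
      have h1 : fderiv ℝ (fun x => F x + v) = fderiv ℝ F := by
        funext y
        exact fderiv_add_const v
      rw [h1]
      simpa using hδ

/-- a continuous `ℤⁿ`-periodic function is bounded -/
theorem periodic_bounded {V : Type*} [SeminormedAddCommGroup V] (g : (Fin n → ℝ) → V)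
    (hg : Continuous g) (hper : ∀ (x : Fin n → ℝ) (k : Fin n → ℤ), g (fun i => x i + k i) = g x) :
    ∃ C : ℝ, 0 ≤ C ∧ ∀ x, ‖g x‖ ≤ C := by
  have hK : IsCompact (Set.Icc (0 : Fin n → ℝ) 1) := isCompact_Icc
  obtain ⟨C, hC⟩ := hK.exists_bound_of_continuousOn hg.continuousOn
  refine ⟨max C 0, le_max_right _ _, fun x => ?_⟩
  have h1 := hper x (fun i => - ⌊x i⌋)
  rw [← h1]
  refine (hC _ ?_).trans (le_max_left _ _)
  rw [Set.mem_Icc, Pi.le_def, Pi.le_def]
  constructor <;> intro i
  · have := Int.floor_le (x i)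
    simp only [Pi.zero_apply, Int.cast_neg]
    linarith
  · have := Int.lt_floor_add_one (x i)
    simp only [Pi.one_apply, Int.cast_neg]
    linarith

theorem periodic_fderiv_bounded {V : Type*} [NormedAddCommGroup V] [NormedSpace ℝ V]
    (φ : (Fin n → ℝ) → V) (hφ : ContDiff ℝ 1 φ)
    (hper : ∀ (x : Fin n → ℝ) (k : Fin n → ℤ), ∃ c : V, ∀ y : Fin n → ℝ,
      φ (fun i => y i + k i) = φ y + c) :
    ∃ C : ℝ, 0 ≤ C ∧ ∀ x, ‖fderiv ℝ φ x‖ ≤ C := by
  have hcont : Continuous (fderiv ℝ φ) := hφ.continuous_fderiv one_ne_zero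
  refine periodic_bounded (fderiv ℝ φ) hcont fun x k => ?_
  obtain ⟨c, hc⟩ := hper x k
  have h1 : (fun y : Fin n → ℝ => φ (y + fun i => (k i : ℝ))) = fun y => φ y + c :=
    funext fun y => hc y
  have h2 := fderiv_comp_add_right (𝕜 := ℝ) (f := φ) (x := x) (fun i => (k i : ℝ))
  rw [h1, fderiv_add_const] at h2
  exact h2.symm

theorem periodic_lipschitz (φ : (Fin n → ℝ) → ℝ) (hφ : ContDiff ℝ 1 φ)
    (hper : ∀ (x : Fin n → ℝ) (k : Fin n → ℤ), φ (fun i => x i + k i) = φ x) :
    ∃ L : ℝ, 0 ≤ L ∧ ∀ x y, |φ x - φ y| ≤ L * ‖x - y‖ := by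
  have hcont : Continuous (fderiv ℝ φ) := hφ.continuous_fderiv one_ne_zero
  have hper' : ∀ (x : Fin n → ℝ) (k : Fin n → ℤ),
      fderiv ℝ φ (fun i => x i + k i) = fderiv ℝ φ x := by
    intro x k
    have h1 : (fun y : Fin n → ℝ => φ (y + fun i => (k i : ℝ))) = φ := funext fun y => hper y k
    have h2 := fderiv_comp_add_right (𝕜 := ℝ) (f := φ) (x := x) (fun i => (k i : ℝ))
    rw [h1] at h2
    exact h2.symm
  obtain ⟨C, hC0, hC⟩ := periodic_bounded (fderiv ℝ φ) hcont hper'
  refine ⟨C, hC0, fun x y => ?_⟩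
  have hd : Differentiable ℝ φ := hφ.differentiable one_ne_zero
  have := Convex.norm_image_sub_le_of_norm_fderiv_le (𝕜 := ℝ) (f := φ) (s := Set.univ)
    (fun z _ => hd z) (fun z _ => hC z) convex_univ (Set.mem_univ y) (Set.mem_univ x)
  simpa [Real.norm_eq_abs] using this

theorem strongChain_of_nonwandering {f : Tor n → Tor n} (hf : Continuous f) {x : Tor n}
    (h : Nonwandering f x) : StrongChainRecurrent f x := by
  intro ε hε
  obtain ⟨δ, hδ, hδ'⟩ := Metric.continuousAt_iff.mp hf.continuousAt (ε / 2) (half_pos hε)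
  obtain ⟨m, hm, y, ⟨u, hu, hum⟩, hy⟩ := h (Metric.ball x (min δ (ε / 2))) Metric.isOpen_ball
    (Metric.mem_ball_self (lt_min hδ (half_pos hε)))
  have hu1 : dist u x < δ := (Metric.mem_ball.mp hu).trans_le (min_le_left _ _)
  have hy1 : dist y x < ε / 2 := (Metric.mem_ball.mp hy).trans_le (min_le_right _ _)
  refine ⟨m, hm, fun i => if i = 0 then x else if i = m then x else f^[i] u, by simp, ?_, ?_⟩
  · simp
  · -- the errors
    obtain ⟨m, rfl⟩ : ∃ m', m = m' + 1 := ⟨m - 1, by omega⟩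
    rw [Finset.sum_range_succ]
    have hmid : ∀ i ∈ Finset.range m, dist (f (if i = 0 then x else if i = m + 1 then x else f^[i] u))
        (if i + 1 = 0 then x else if i + 1 = m + 1 then x else f^[i + 1] u)
        = if i = 0 then dist (f x) (f u) else 0 := by
      intro i hi
      have hi' : i < m := Finset.mem_range.mp hi
      have e1 : ¬ (i + 1 = 0) := by omega
      have e2 : ¬ (i + 1 = m + 1) := by omega
      have e3 : ¬ (i = m + 1) := by omega
      rw [if_neg e1, if_neg e2, if_neg e3]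
      by_cases h0 : i = 0
      · subst h0; simp
      · rw [if_neg h0, if_neg h0, Function.iterate_succ_apply', dist_self]
    rw [Finset.sum_congr rfl hmid]
    have hd1 : dist (f x) (f u) < ε / 2 := by rw [dist_comm]; exact hδ' hu1
    have e1 : ¬ (m + 1 = 0) := by omega
    beta_reduce
    rw [if_neg e1, if_pos rfl]
    by_cases hm0 : m = 0
    · subst hm0
      simp only [Finset.range_zero, Finset.sum_empty, if_true, zero_add]
      have h2 : dist (f x) x ≤ dist (f x) (f u) + dist (f u) x := dist_triangle _ _ _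
      have h3 : f u = y := by simpa using hum
      rw [h3] at h2
      rw [h3] at hd1
      linarith
    · have e3 : ¬ (m = m + 1) := by omega
      rw [if_neg hm0, if_neg e3]
      have hsum : ∑ i ∈ Finset.range m, (if i = 0 then dist (f x) (f u) else 0) = dist (f x) (f u) := by
        rw [Finset.sum_ite_eq' (Finset.range m) 0 (fun _ => dist (f x) (f u))]
        rw [if_pos (Finset.mem_range.mpr (Nat.pos_of_ne_zero hm0))]
      have hum' : f (f^[m] u) = y := by rw [← Function.iterate_succ_apply' f m u, hum]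
      rw [hsum, hum']
      linarith

theorem nonwandering_of_recurrent {f : Tor n ≃ₜ Tor n} {x : Tor n} (h : Recurrent f x) :
    Nonwandering f x := by
  intro U hU hxU
  by_contra hcon
  push Not at hcon
  apply h
  -- no return: for all m ≠ 0, f^m x ∉ U
  have hit : ∀ (m : ℕ) (y : Tor n), (f ^ m) y = f^[m] y := by
    intro m y
    induction m generalizing y with
    | zero => rfl
    | succ m ih => rw [pow_succ, Homeomorph.mul_apply, ih, Function.iterate_succ_apply]
  have hne : ∀ m : ℤ, m ≠ 0 → (f ^ m) x ∉ U := by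
    intro m hm hxm
    rcases lt_or_gt_of_ne hm with h1 | h1
    · obtain ⟨k, hk⟩ := Int.exists_eq_neg_ofNat h1.le
      have hk1 : 1 ≤ k := by omega
      have h2 := hcon k hk1
      rw [Set.eq_empty_iff_forall_notMem] at h2
      apply h2 x
      refine ⟨⟨(f ^ m) x, hxm, ?_⟩, hxU⟩
      rw [← hit, ← zpow_natCast, ← Homeomorph.mul_apply, ← zpow_add, hk]
      simp
    · obtain ⟨k, hk⟩ := Int.eq_ofNat_of_zero_le h1.le
      have hk1 : 1 ≤ k := by omega
      have h2 := hcon k hk1
      rw [Set.eq_empty_iff_forall_notMem] at h2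
      apply h2 ((f ^ m) x)
      refine ⟨⟨x, hxU, ?_⟩, hxm⟩
      rw [← hit, hk, zpow_natCast]
  have hinj : Function.Injective (fun m : ℤ => (f ^ m) x) := by
    intro m m' hmm
    by_contra hne'
    have h3 : (f ^ (m - m')) x = x := by
      have h4 : (f ^ (-m')) ((f ^ m) x) = (f ^ (-m')) ((f ^ m') x) := congrArg _ hmm
      rw [← Homeomorph.mul_apply, ← Homeomorph.mul_apply, ← zpow_add, ← zpow_add] at h4
      simpa [add_comm, sub_eq_add_neg] using h4
    exact hne (m - m') (sub_ne_zero.mpr hne') (by rw [h3]; exact hxU)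
  refine ⟨⟨?_⟩, hinj⟩
  -- inducing
  have hdisc : ∀ m : ℤ, @IsOpen ℤ (TopologicalSpace.induced (fun m : ℤ => (f ^ m) x) inferInstance) {m} := by
    intro m
    rw [isOpen_induced_iff]
    refine ⟨(f ^ m) '' U, (f ^ m).isOpenMap U hU, ?_⟩
    ext m'
    simp only [Set.mem_preimage, Set.mem_image, Set.mem_singleton_iff]
    constructor
    · rintro ⟨u, hu, hu2⟩
      by_contra hmm
      have h5 : (f ^ (m' - m)) x = u := by
        have h6 := congrArg (fun z => (f ^ (-m)) z) hu2
        beta_reduce at h6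
        rw [← Homeomorph.mul_apply, ← Homeomorph.mul_apply, ← zpow_add, ← zpow_add] at h6
        have h7 : u = (f ^ (-m + m')) x := by simpa using h6
        rw [h7]
        congr 2
        ring
      exact hne (m' - m) (sub_ne_zero.mpr hmm) (by rw [h5]; exact hu)
    · rintro rfl
      exact ⟨x, hxU, rfl⟩
  have : TopologicalSpace.induced (fun m : ℤ => (f ^ m) x) inferInstance = ⊥ := by
    apply eq_bot_of_singletons_open
    exact hdisc
  rw [this]
  exact DiscreteTopology.eq_bot

end Pool.Agent.Lib.MP_1e8d1a_an.Torus
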