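import Mathlib
import Pool.Agent.Lib.MP_1e8d1a_an.Torus

/-!
The return map along the leaf direction, and a periodic trigonometric bump function.
-/

namespace Pool.Agent.Lib.MP_1e8d1a_an.LeafReturn

open Function

section
variable {E : Type*} [NormedAddCommGroup E] [NormedSpace ℝ E]

/-- leaf coordinate of the orbit of `z 0 + D 0 + s • b` -/
noncomputable def rho (lam : ℝ) (φ : E → ℝ) (b : E) (z D : ℕ → E) (c : ℕ → ℝ) (s : ℝ) : ℕ → ℝ
  | 0 => s
  | (i + 1) =>
      lam * rho lam φ b z D c s i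
        + φ (z i + D i + (rho lam φ b z D c s i) • b) - φ (z i) + c i

theorem rho_continuous (lam : ℝ) (φ : E → ℝ) (hφ : Continuous φ) (b : E) (z D : ℕ → E)
    (c : ℕ → ℝ) (i : ℕ) : Continuous fun s => rho lam φ b z D c s i := by
  induction i with
  | zero => simp only [rho]; exact continuous_id'
  | succ i ih =>
    simp only [rho]
    fun_prop

theorem rho_iter (A : E →ₗ[ℝ] E) (a b : E) (lam : ℝ) (hAb : A b = lam • b) (φ : E → ℝ)
    (N : ℕ) (z D e : ℕ → E) (c : ℕ → ℝ)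
    (hz : ∀ i < N, z (i + 1) = A (z i) + a + φ (z i) • b + e i)
    (hD : ∀ i < N, A (D i) - e i = D (i + 1) + c i • b) (s : ℝ) :
    ∀ i ≤ N, (fun x => A x + a + φ x • b)^[i] (z 0 + D 0 + s • b)
      = z i + D i + (rho lam φ b z D c s i) • b := by
  intro i
  induction i with
  | zero => intro _; simp [rho]
  | succ i ih =>
    intro hi
    have hi' : i < N := hi
    rw [Function.iterate_succ_apply', ih hi'.le]
    have h1 := hz i hi'
    have h2 := hD i hi'
    simp only [rho, map_add, map_smul, hAb]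
    rw [h1]
    have h3 : A (D i) = D (i + 1) + c i • b + e i := by
      rw [← h2]; abel
    rw [h3]
    module

theorem rho_zero (lam : ℝ) (φ : E → ℝ) (b : E) (z : ℕ → E) (i : ℕ) :
    rho lam φ b z 0 0 0 i = 0 := by
  induction i with
  | zero => rfl
  | succ i ih => simp [rho, ih]

theorem rho_deriv (lam : ℝ) (φ : E → ℝ) (hφ : Differentiable ℝ φ) (b : E) (z : ℕ → E) (i : ℕ) :
    HasDerivAt (fun s => rho lam φ b z 0 0 s i)
      (∏ j ∈ Finset.range i, (lam + fderiv ℝ φ (z j) b)) 0 := by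
  induction i with
  | zero => simp only [rho, Finset.range_zero, Finset.prod_empty]; exact hasDerivAt_id' (0 : ℝ)
  | succ i ih =>
    have h0 := rho_zero lam φ b z i
    rw [Finset.prod_range_succ]
    set P := ∏ j ∈ Finset.range i, (lam + fderiv ℝ φ (z j) b) with hP
    have h1 : HasDerivAt (fun s => z i + (0 : ℕ → E) i + (rho lam φ b z 0 0 s i) • b) (P • b) 0 := by
      simpa using ((ih.smul_const b).const_add (z i + (0 : ℕ → E) i))
    have h2 : HasFDerivAt φ (fderiv ℝ φ (z i))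
        (z i + (0 : ℕ → E) i + (rho lam φ b z 0 0 0 i) • b) := by
      have : z i + (0 : ℕ → E) i + (rho lam φ b z 0 0 0 i) • b = z i := by rw [h0]; simp
      rw [this]
      exact (hφ (z i)).hasFDerivAt
    have h3 := h2.comp_hasDerivAt (0 : ℝ) h1
    have h4 := ((ih.const_mul lam).add h3).sub_const (φ (z i))
    have h5 := h4.add_const ((0 : ℕ → ℝ) i)
    have h6 : HasDerivAt (fun s => rho lam φ b z 0 0 s (i + 1))
      (lam * P + (fderiv ℝ φ (z i)) (P • b)) 0 := h5
    refine h6.congr_deriv ?_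
    rw [map_smul, smul_eq_mul]
    ring

end

section bump
variable {n : ℕ}
open Pool.Agent.Lib.MP_1e8d1a_an.Torus

/-- vanishes exactly on `ℤⁿ` -/
noncomputable def Q (y : Fin n → ℝ) : ℝ := ∑ l, (1 - Real.cos (2 * Real.pi * y l))

theorem Q_contDiff {m : WithTop ℕ∞} : ContDiff ℝ m (Q : (Fin n → ℝ) → ℝ) := by
  unfold Q
  refine ContDiff.sum fun l _ => ?_
  exact contDiff_const.sub (Real.contDiff_cos.comp (contDiff_const.mul (contDiff_apply ℝ ℝ l)))

theorem Q_nonneg (y : Fin n → ℝ) : 0 ≤ Q y :=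
  Finset.sum_nonneg fun l _ => by linarith [Real.cos_le_one (2 * Real.pi * y l)]

theorem Q_zero : Q (0 : Fin n → ℝ) = 0 := by simp [Q]

theorem Q_eq_zero {y : Fin n → ℝ} (h : Q y = 0) : ∃ k : Fin n → ℤ, ∀ l, y l = k l := by
  have h1 : ∀ l ∈ Finset.univ, 0 ≤ (1 - Real.cos (2 * Real.pi * y l)) := fun l _ => by
    linarith [Real.cos_le_one (2 * Real.pi * y l)]
  have h2 := (Finset.sum_eq_zero_iff_of_nonneg h1).mp h
  have h3 : ∀ l, ∃ k : ℤ, y l = k := by
    intro l
    have h4 : Real.cos (2 * Real.pi * y l) = 1 := by linarith [h2 l (Finset.mem_univ l)]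
    obtain ⟨k, hk⟩ := (Real.cos_eq_one_iff _).mp h4
    refine ⟨k, ?_⟩
    have h5 : (2 * Real.pi) * (y l - k) = 0 := by linarith
    rcases mul_eq_zero.mp h5 with h6 | h6
    · exact absurd h6 (by positivity)
    · linarith
  choose k hk using h3
  exact ⟨k, hk⟩

theorem Q_periodic (y : Fin n → ℝ) (k : Fin n → ℤ) : Q (fun i => y i + k i) = Q y := by
  unfold Q
  refine Finset.sum_congr rfl fun l _ => ?_
  have : 2 * Real.pi * (y l + k l) = 2 * Real.pi * y l + k l * (2 * Real.pi) := by ring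
  rw [this, Real.cos_add_int_mul_two_pi]

theorem Q_fderiv_zero : HasFDerivAt (Q : (Fin n → ℝ) → ℝ) (0 : (Fin n → ℝ) →L[ℝ] ℝ) 0 := by
  have hmin : IsLocalMin (Q : (Fin n → ℝ) → ℝ) 0 :=
    Filter.Eventually.of_forall fun y => by rw [Q_zero]; exact Q_nonneg y
  have hd : DifferentiableAt ℝ (Q : (Fin n → ℝ) → ℝ) 0 :=
    (Q_contDiff (m := 1)).differentiable one_ne_zero 0
  have := hd.hasFDerivAt
  rwa [hmin.fderiv_eq_zero] at this

theorem bump (b : Fin n → ℝ) (hb : b ≠ 0) (N : ℕ) (p : ℕ → (Fin n → ℝ))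
    (hp : ∀ i, 1 ≤ i → i < N → proj (p i) ≠ proj (p 0)) :
    ∃ ψ : (Fin n → ℝ) → ℝ, (∀ m : WithTop ℕ∞, ContDiff ℝ m ψ) ∧
      (∀ (x : Fin n → ℝ) (k : Fin n → ℤ), ψ (fun i => x i + k i) = ψ x) ∧
      ψ (p 0) = 0 ∧ fderiv ℝ ψ (p 0) b = 1 ∧
      (∀ i, 1 ≤ i → i < N → ψ (p i) = 0 ∧ fderiv ℝ ψ (p i) b = 0) := by
  obtain ⟨j, hj⟩ : ∃ j, b j ≠ 0 := by
    by_contra h
    push Not at h
    exact hb (funext h)
  set w : (Fin n → ℝ) → ℝ := fun x => ∏ i ∈ Finset.Ico 1 N, Q (x - p i) with hw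
  have hwc : ∀ m : WithTop ℕ∞, ContDiff ℝ m w := fun m =>
    contDiff_prod fun i _ => Q_contDiff.comp (contDiff_id.sub contDiff_const)
  set σ : (Fin n → ℝ) → ℝ := fun x => Real.sin (2 * Real.pi * (x j - p 0 j)) with hσ
  have hσc : ∀ m : WithTop ℕ∞, ContDiff ℝ m σ := fun m =>
    Real.contDiff_sin.comp (contDiff_const.mul ((contDiff_apply ℝ ℝ j).sub contDiff_const))
  have hw0 : w (p 0) ≠ 0 := by
    rw [hw]
    refine Finset.prod_ne_zero_iff.mpr fun i hi => ?_
    intro h0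
    obtain ⟨k, hk⟩ := Q_eq_zero h0
    have hi' := Finset.mem_Ico.mp hi
    apply hp i hi'.1 hi'.2
    symm
    rw [proj_eq_iff]
    refine ⟨k, fun l => ?_⟩
    have := hk l
    simp only [Pi.sub_apply] at this
    linarith
  set c0 : ℝ := w (p 0) * (2 * Real.pi * b j) with hc0
  have hc0' : c0 ≠ 0 := mul_ne_zero hw0 (by positivity)
  have hσ0 : σ (p 0) = 0 := by simp [hσ]
  have hσd : HasFDerivAt σ ((2 * Real.pi) • (ContinuousLinearMap.proj j : (Fin n → ℝ) →L[ℝ] ℝ)) (p 0) := by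
    have h1 : HasFDerivAt (fun x : Fin n → ℝ => 2 * Real.pi * (x j - p 0 j))
        ((2 * Real.pi) • (ContinuousLinearMap.proj j : (Fin n → ℝ) →L[ℝ] ℝ)) (p 0) := by
      have := ((ContinuousLinearMap.proj (R := ℝ) (φ := fun _ : Fin n => ℝ) j).hasFDerivAt
        (x := p 0)).sub_const (p 0 j)
      exact this.const_mul (2 * Real.pi)
    have h2 := h1.sin
    simpa using h2
  refine ⟨fun x => c0⁻¹ * (σ x * w x), ?_, ?_, ?_, ?_, ?_⟩
  · intro m
    exact contDiff_const.mul ((hσc m).mul (hwc m))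
  · intro x k
    have e1 : σ (fun i => x i + k i) = σ x := by
      simp only [hσ]
      have : 2 * Real.pi * (x j + k j - p 0 j) = 2 * Real.pi * (x j - p 0 j) + k j * (2 * Real.pi) := by
        ring
      rw [this, Real.sin_add_int_mul_two_pi]
    have e2 : w (fun i => x i + k i) = w x := by
      simp only [hw]
      refine Finset.prod_congr rfl fun i _ => ?_
      have : (fun i => x i + (k i : ℝ)) - p i = fun l => (x - p i) l + k l := by
        funext l; simp only [Pi.sub_apply]; ring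
      rw [this, Q_periodic]
    show c0⁻¹ * (σ (fun i => x i + k i) * w (fun i => x i + k i)) = _
    rw [e1, e2]
  · show c0⁻¹ * (σ (p 0) * w (p 0)) = 0
    rw [hσ0]; ring
  · have h1 : HasFDerivAt w (fderiv ℝ w (p 0)) (p 0) :=
      ((hwc 1).differentiable one_ne_zero _).hasFDerivAt
    have h2 := (hσd.mul h1).const_mul c0⁻¹
    have h2' : HasFDerivAt (fun x => c0⁻¹ * (σ x * w x)) _ (p 0) := h2
    rw [h2'.fderiv]
    simp only [hσ0, zero_smul, zero_add, ContinuousLinearMap.smul_apply,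
      ContinuousLinearMap.proj_apply, smul_eq_mul]
    rw [← hc0, inv_mul_cancel₀ hc0']
  · intro i hi1 hi2
    have hmem : i ∈ Finset.Ico 1 N := Finset.mem_Ico.mpr ⟨hi1, hi2⟩
    set w' : (Fin n → ℝ) → ℝ := fun x => ∏ l ∈ (Finset.Ico 1 N).erase i, Q (x - p l) with hw'
    have hw'c : ContDiff ℝ 1 w' :=
      contDiff_prod fun i _ => Q_contDiff.comp (contDiff_id.sub contDiff_const)
    have hfac : (fun x => c0⁻¹ * (σ x * w x)) = fun x => Q (x - p i) * (c0⁻¹ * (σ x * w' x)) := by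
      funext x
      have : w x = Q (x - p i) * w' x := by
        simp only [hw, hw']
        rw [Finset.mul_prod_erase (Finset.Ico 1 N) (fun l => Q (x - p l)) hmem]
      rw [this]; ring
    rw [hfac]
    have hq0 : Q (p i - p i) = 0 := by rw [sub_self, Q_zero]
    refine ⟨by simp only [hq0, zero_mul], ?_⟩
    have h1 : HasFDerivAt (fun x => Q (x - p i)) (0 : (Fin n → ℝ) →L[ℝ] ℝ) (p i) := by
      have h3 : HasFDerivAt (Q : (Fin n → ℝ) → ℝ) (0 : (Fin n → ℝ) →L[ℝ] ℝ) (p i - p i) := by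
        rw [sub_self]; exact Q_fderiv_zero
      have h5 : HasFDerivAt (fun x : Fin n → ℝ => x - p i)
          (ContinuousLinearMap.id ℝ (Fin n → ℝ)) (p i) := (hasFDerivAt_id (p i)).sub_const (p i)
      have h6 := HasFDerivAt.comp (g := Q) (f := fun x : Fin n → ℝ => x - p i) (p i) h3 h5
      simpa [Function.comp_def] using h6
    have h2 : DifferentiableAt ℝ (fun x => c0⁻¹ * (σ x * w' x)) (p i) := by
      have : ContDiff ℝ 1 (fun x => c0⁻¹ * (σ x * w' x)) :=
        contDiff_const.mul ((hσc 1).mul hw'c)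
      exact this.differentiable one_ne_zero _
    have h4 := h1.mul h2.hasFDerivAt
    have h4' : HasFDerivAt (fun x => Q (x - p i) * (c0⁻¹ * (σ x * w' x))) _ (p i) := h4
    rw [h4'.fderiv, hq0]
    simp

end bump

end Pool.Agent.Lib.MP_1e8d1a_an.LeafReturn
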