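import Mathlib
import Pool.Agent.Lib.MP_1e8d1a_an.Torus

/-!
Homeomorphisms of the torus from equivariant homeomorphisms of `ℝⁿ`, small shears.
-/

namespace Pool.Agent.Lib.MP_1e8d1a_an.TorusHomeo

open Pool.Agent.Lib.MP_1e8d1a_an.Torus

variable {n : ℕ}

theorem openQuotient_proj : IsOpenQuotientMap (proj : (Fin n → ℝ) → Tor n) := by
  have h : ∀ _ : Fin n, IsOpenQuotientMap (fun x : ℝ => (x : UnitAddCircle)) := fun _ =>
    QuotientAddGroup.isOpenQuotientMap_mk
  exact IsOpenQuotientMap.piMap h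

/-- periodic function descend -/
theorem descend {V : Type*} [TopologicalSpace V] (g : (Fin n → ℝ) → V) (hg : Continuous g)
    (hper : ∀ (x : Fin n → ℝ) (k : Fin n → ℤ), g (fun i => x i + k i) = g x) :
    ∃ h : Tor n → V, Continuous h ∧ ∀ x, h (proj x) = g x := by
  classical
  have hsurj : Function.Surjective (proj : (Fin n → ℝ) → Tor n) := proj_surj
  refine ⟨fun y => g (Function.surjInv hsurj y), ?_, ?_⟩
  · rw [← openQuotient_proj.continuous_comp_iff]
    have : (fun y => g (Function.surjInv hsurj y)) ∘ proj = g := by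
      funext x
      have h1 : proj (Function.surjInv hsurj (proj x)) = proj x := Function.surjInv_eq hsurj _
      obtain ⟨k, hk⟩ := (proj_eq_iff _ _).mp h1
      have h2 : Function.surjInv hsurj (proj x) = fun i => x i + k i := funext hk
      show g (Function.surjInv hsurj (proj x)) = g x
      rw [h2, hper]
    rw [this]; exact hg
  · intro x
    have h1 : proj (Function.surjInv hsurj (proj x)) = proj x := Function.surjInv_eq hsurj _
    obtain ⟨k, hk⟩ := (proj_eq_iff _ _).mp h1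
    have h2 : Function.surjInv hsurj (proj x) = fun i => x i + k i := funext hk
    show g (Function.surjInv hsurj (proj x)) = g x
    rw [h2, hper]

/-- equivariant homeomorphisms of `ℝⁿ` (identity on `ℤⁿ`-translations) descend -/
theorem homeo_descend (S : (Fin n → ℝ) ≃ₜ (Fin n → ℝ))
    (hS : ∀ (x : Fin n → ℝ) (k : Fin n → ℤ), S (fun i => x i + k i) = fun i => S x i + k i) :
    ∃ s : Tor n ≃ₜ Tor n, IsLift S s ∧ IsLift S.symm s.symm := by
  have hS' : ∀ (x : Fin n → ℝ) (k : Fin n → ℤ), S.symm (fun i => x i + k i) = fun i => S.symm x i + k i := by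
    intro x k
    rw [Homeomorph.symm_apply_eq, hS]
    simp
  obtain ⟨h1, hc1, hh1⟩ := descend (fun x => proj (S x)) (continuous_proj.comp S.continuous) (by
    intro x k
    simp only [hS]
    exact (proj_eq_iff _ _).mpr ⟨k, fun i => rfl⟩)
  obtain ⟨h2, hc2, hh2⟩ := descend (fun x => proj (S.symm x))
    (continuous_proj.comp S.symm.continuous) (by
    intro x k
    simp only [hS']
    exact (proj_eq_iff _ _).mpr ⟨k, fun i => rfl⟩)
  refine ⟨⟨⟨h1, h2, ?_, ?_⟩, hc1, hc2⟩, fun x => (hh1 x).symm, fun x => (hh2 x).symm⟩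
  · intro y
    obtain ⟨x, rfl⟩ := proj_surj y
    rw [hh1, hh2, S.symm_apply_apply]
  · intro y
    obtain ⟨x, rfl⟩ := proj_surj y
    rw [hh2, hh1, S.apply_symm_apply]

/-- two continuous lifts differ by an integer vector -/
theorem lifts_differ {f : Tor n → Tor n} {F G : (Fin n → ℝ) → (Fin n → ℝ)}
    (hFc : Continuous F) (hGc : Continuous G) (hF : IsLift F f) (hG : IsLift G f) :
    ∃ k : Fin n → ℤ, ∀ x, F x = fun i => G x i + k i := by
  have h1 : ∀ x, ∃ k : Fin n → ℤ, ∀ i, F x i = G x i + k i := fun x =>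
    (proj_eq_iff _ _).mp (by rw [hF, hG])
  choose k hk using h1
  have hcont : Continuous fun x => F x - G x := hFc.sub hGc
  have hconst : ∀ x i, F x i - G x i = k 0 i := by
    intro x i
    have hc : Continuous fun x => F x i - G x i :=
      ((continuous_apply i).comp hFc).sub ((continuous_apply i).comp hGc)
    have hint : ∀ x, F x i - G x i = ((k x i : ℤ) : ℝ) := fun x => by rw [hk x i]; ring
    -- a continuous integer valued function is constant
    have hk_cont : Continuous fun x => k x i := by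
      rw [Int.isClosedEmbedding_coe_real.isEmbedding.continuous_iff]
      have : (fun x => F x i - G x i) = ((↑) : ℤ → ℝ) ∘ fun x => k x i := funext hint
      rw [← this]; exact hc
    have := PreconnectedSpace.constant (α := Fin n → ℝ) (inferInstance) hk_cont (x := x) (y := 0)
    rw [hint, this]
  refine ⟨k 0, fun x => funext fun i => ?_⟩
  have := hconst x i
  linarith

/-- a small shear along `b` -/
theorem shear_homeo {r : ℕ∞} (hr : 1 ≤ r) (b : Fin n → ℝ) (θ : (Fin n → ℝ) → ℝ)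
    (hθ : ContDiff ℝ r θ)
    (hper : ∀ (x : Fin n → ℝ) (k : Fin n → ℤ), θ (fun i => x i + k i) = θ x)
    (c : ℝ) (hc0 : 0 ≤ c) (hc : c * ‖b‖ < 1) (hLip : ∀ x, ‖fderiv ℝ θ x‖ ≤ c) :
    ∃ s : Tor n ≃ₜ Tor n, IsDiffeo r s ∧ IsLift (fun x => x + θ x • b) s := by
  set S : (Fin n → ℝ) → (Fin n → ℝ) := fun x => x + θ x • b with hS
  have hθ1 : ContDiff ℝ 1 θ := hθ.of_le (by exact_mod_cast hr)
  have hd : Differentiable ℝ θ := hθ1.differentiable one_ne_zero
  have hSd : ContDiff ℝ r S := contDiff_id.add (hθ.smul contDiff_const)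
  have hSder : ∀ x, HasFDerivAt S (ContinuousLinearMap.id ℝ _ + (fderiv ℝ θ x).smulRight b) x := by
    intro x
    exact (hasFDerivAt_id x).add ((hd x).hasFDerivAt.smul_const b)
  have hTnorm : ∀ x, ‖(fderiv ℝ θ x).smulRight b‖ ≤ c * ‖b‖ := by
    intro x
    rw [ContinuousLinearMap.norm_smulRight_apply]
    exact mul_le_mul_of_nonneg_right (hLip x) (norm_nonneg _)
  have hLipθ : ∀ x y, |θ x - θ y| ≤ c * ‖x - y‖ := by
    intro x y
    have := Convex.norm_image_sub_le_of_norm_fderiv_le (𝕜 := ℝ) (f := θ) (s := Set.univ)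
      (fun z _ => hd z) (fun z _ => hLip z) convex_univ (Set.mem_univ y) (Set.mem_univ x)
    simpa [Real.norm_eq_abs] using this
  set c' : NNReal := Real.toNNReal (c * ‖b‖) with hc'
  have hc'v : (c' : ℝ) = c * ‖b‖ := Real.coe_toNNReal _ (by positivity)
  have happ : ApproximatesLinearOn S
      ((ContinuousLinearEquiv.refl ℝ (Fin n → ℝ)) : (Fin n → ℝ) →L[ℝ] (Fin n → ℝ)) Set.univ c' := by
    intro x _ y _
    have h1 : S x - S y - ((ContinuousLinearEquiv.refl ℝ (Fin n → ℝ)) :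
        (Fin n → ℝ) →L[ℝ] (Fin n → ℝ)) (x - y) = (θ x - θ y) • b := by
      simp only [hS, ContinuousLinearEquiv.coe_refl, ContinuousLinearMap.coe_id', id_eq, sub_smul]
      abel
    rw [h1, norm_smul, Real.norm_eq_abs]
    calc |θ x - θ y| * ‖b‖ ≤ (c * ‖x - y‖) * ‖b‖ :=
          mul_le_mul_of_nonneg_right (hLipθ x y) (norm_nonneg _)
      _ = c' * ‖x - y‖ := by rw [hc'v]; ring
  have hcc : Subsingleton (Fin n → ℝ) ∨
      c' < ‖((ContinuousLinearEquiv.refl ℝ (Fin n → ℝ)).symm : (Fin n → ℝ) →L[ℝ] (Fin n → ℝ))‖₊⁻¹ := by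
    rcases subsingleton_or_nontrivial (Fin n → ℝ) with h | h
    · exact Or.inl h
    · right
      have : ‖((ContinuousLinearEquiv.refl ℝ (Fin n → ℝ)).symm : (Fin n → ℝ) →L[ℝ] (Fin n → ℝ))‖₊ = 1 := by
        have h2 : ((ContinuousLinearEquiv.refl ℝ (Fin n → ℝ)).symm : (Fin n → ℝ) →L[ℝ] (Fin n → ℝ))
          = ContinuousLinearMap.id ℝ (Fin n → ℝ) := rfl
        rw [h2]
        exact ContinuousLinearMap.nnnorm_id
      rw [this, inv_one, ← NNReal.coe_lt_coe, hc'v]
      exact hc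
  set Sh : (Fin n → ℝ) ≃ₜ (Fin n → ℝ) := happ.toHomeomorph S hcc with hSh
  have hShS : ∀ x, Sh x = S x := fun x => rfl
  have hequiv : ∀ (x : Fin n → ℝ) (k : Fin n → ℤ), Sh (fun i => x i + k i) = fun i => Sh x i + k i := by
    intro x k
    rw [hShS, hShS]
    simp only [hS]
    rw [hper]
    funext i
    simp only [Pi.add_apply, Pi.smul_apply]
    ring
  have hunit : ∀ x, ∃ e : (Fin n → ℝ) ≃L[ℝ] (Fin n → ℝ),
      (e : (Fin n → ℝ) →L[ℝ] (Fin n → ℝ)) = ContinuousLinearMap.id ℝ _ + (fderiv ℝ θ x).smulRight b := by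
    intro x
    have hlt : ‖-((fderiv ℝ θ x).smulRight b)‖ < 1 := by
      rw [norm_neg]; exact (hTnorm x).trans_lt hc
    refine ⟨ContinuousLinearEquiv.unitsEquiv ℝ (Fin n → ℝ) (Units.oneSub _ hlt), ?_⟩
    ext v i
    simp [Units.val_oneSub]
  choose e he using hunit
  have hsymm : ContDiff ℝ r (Sh.symm : (Fin n → ℝ) → (Fin n → ℝ)) := by
    refine Homeomorph.contDiff_symm Sh (f₀' := e) (fun a => ?_) hSd
    rw [he]
    exact hSder a
  obtain ⟨s, hs1, hs2⟩ := homeo_descend Sh hequiv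
  exact ⟨s, ⟨⟨Sh, hSd, hs1⟩, ⟨Sh.symm, hsymm, hs2⟩⟩, hs1⟩

end Pool.Agent.Lib.MP_1e8d1a_an.TorusHomeo
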