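import Mathlib
import Pool.Agent.Lib.MP_1e8d1a_an.Torus
import Pool.Agent.Lib.MP_1e8d1a_an.TorusHomeo
import Pool.Agent.Lib.MP_1e8d1a_an.LeafReturn
import Pool.Agent.Lib.MP_1e8d1a_an.CyclicShadow

/-!
Making a periodic point of a leafwise map transversal along the leaf, and robustness of
transversal periodic points.
-/

namespace Pool.Agent.Lib.MP_1e8d1a_an.LeafPerturb

open Polynomial Pool.Agent.Lib.MP_1e8d1a_an.Torus Pool.Agent.Lib.MP_1e8d1a_an.TorusHomeo
open Pool.Agent.Lib.MP_1e8d1a_an.LeafReturn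

variable {n : ℕ}

/-- The class of `C^r` diffeomorphisms of the torus with a lift `A x + a + φ x • b`,
increasing along the lines parallel to `b`. -/
def InClass (r : ℕ∞) (A : (Fin n → ℝ) →L[ℝ] (Fin n → ℝ)) (b : Fin n → ℝ) (lam : ℝ)
    (f : Tor n ≃ₜ Tor n) : Prop :=
  IsDiffeo r f ∧ ∃ (a : Fin n → ℝ) (φ : (Fin n → ℝ) → ℝ), ContDiff ℝ r φ ∧
    (∀ (x : Fin n → ℝ) (k : Fin n → ℤ), φ (fun i => x i + k i) = φ x) ∧
    IsLift (fun x => A x + a + φ x • b) f ∧
    ∀ x, StrictMono fun s : ℝ => lam * s + φ (x + s • b)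

/-- `x` is periodic for `g` and the return map along the leaf crosses the identity
within distance `ρ` of `x`. -/
def Crossing (A : (Fin n → ℝ) →L[ℝ] (Fin n → ℝ)) (b : Fin n → ℝ) (lam : ℝ)
    (g : Tor n → Tor n) (x : Tor n) (ρ : ℝ) : Prop :=
  ∃ (a : Fin n → ℝ) (φ : (Fin n → ℝ) → ℝ) (x0 : Fin n → ℝ) (N : ℕ) (s1 s2 : ℝ),
    ContDiff ℝ 1 φ ∧ (∀ (x : Fin n → ℝ) (k : Fin n → ℤ), φ (fun i => x i + k i) = φ x) ∧
    IsLift (fun x => A x + a + φ x • b) g ∧ proj x0 = x ∧ 1 ≤ N ∧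
    proj ((fun x => A x + a + φ x • b)^[N] x0) = proj x0 ∧ s1 < s2 ∧
    |s1| * ‖b‖ < ρ ∧ |s2| * ‖b‖ < ρ ∧
    (rho lam φ b (fun i => (fun x => A x + a + φ x • b)^[i] x0) 0 0 s1 N - s1) *
    (rho lam φ b (fun i => (fun x => A x + a + φ x • b)^[i] x0) 0 0 s2 N - s2) < 0

theorem leaf_deriv_pos {r : ℕ∞} (hr : 1 ≤ r) (A : (Fin n → ℝ) →L[ℝ] (Fin n → ℝ)) (b : Fin n → ℝ)
    (hb : b ≠ 0) (lam : ℝ) (hAb : A b = lam • b) (f : Tor n ≃ₜ Tor n) (hf : IsDiffeo r f)
    (a : Fin n → ℝ) (φ : (Fin n → ℝ) → ℝ) (hφ : ContDiff ℝ r φ)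
    (hlift : IsLift (fun x => A x + a + φ x • b) f)
    (hmono : ∀ x, StrictMono fun s : ℝ => lam * s + φ (x + s • b)) (x : Fin n → ℝ) :
    0 < lam + fderiv ℝ φ x b := by
  have hr' : (1 : WithTop ℕ∞) ≤ (r : WithTop ℕ∞) := by exact_mod_cast hr
  have hφ1 : ContDiff ℝ 1 φ := hφ.of_le hr'
  have hφd : Differentiable ℝ φ := hφ1.differentiable one_ne_zero
  obtain ⟨G, hG, hGl⟩ := hf.2
  have hG1 : ContDiff ℝ 1 G := hG.of_le hr'
  have hGd : Differentiable ℝ G := hG1.differentiable one_ne_zero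
  set F : (Fin n → ℝ) → (Fin n → ℝ) := fun x => A x + a + φ x • b with hF
  have hFd : ∀ y, HasFDerivAt F (A + (fderiv ℝ φ y).smulRight b) y := by
    intro y
    exact ((A.hasFDerivAt).add_const a).add (((hφd y).hasFDerivAt).smul_const b)
  have hFc : Continuous F := by
    have := A.continuous; have := hφ1.continuous; fun_prop
  -- nonneg from monotonicity
  have hder : HasDerivAt (fun s : ℝ => lam * s + φ (x + s • b)) (lam + fderiv ℝ φ x b) 0 := by
    have h1 : HasDerivAt (fun s : ℝ => x + s • b) b 0 := by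
      simpa using ((hasDerivAt_id (0 : ℝ)).smul_const b).const_add x
    have h2 : HasFDerivAt φ (fderiv ℝ φ x) (x + (0 : ℝ) • b) := by
      rw [zero_smul, add_zero]; exact (hφd x).hasFDerivAt
    have h3 := h2.comp_hasDerivAt (0 : ℝ) h1
    have h4 := ((hasDerivAt_id (0 : ℝ)).const_mul lam).add h3
    have h5 : HasDerivAt (fun s : ℝ => lam * s + φ (x + s • b)) (lam * 1 + fderiv ℝ φ x b) 0 := h4
    simpa using h5
  have hnn : 0 ≤ lam + fderiv ℝ φ x b := by
    rw [← hder.deriv]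
    exact (hmono x).monotone.deriv_nonneg
  -- nonzero from the inverse
  have hGF : IsLift (G ∘ F) (id : Tor n → Tor n) := by
    intro y
    show proj (G (F y)) = proj y
    rw [hGl, hlift, Homeomorph.symm_apply_apply]
  obtain ⟨k, hk⟩ := lifts_differ (hG1.continuous.comp hFc) continuous_id hGF (fun y => rfl)
  have hid : G ∘ F = fun y => y + fun i => (k i : ℝ) := by
    funext y; exact hk y
  have h6 : HasFDerivAt (G ∘ F) ((fderiv ℝ G (F x)).comp (A + (fderiv ℝ φ x).smulRight b)) x :=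
    (hGd (F x)).hasFDerivAt.comp x (hFd x)
  have h7 : HasFDerivAt (G ∘ F) (ContinuousLinearMap.id ℝ (Fin n → ℝ)) x := by
    rw [hid]; exact (hasFDerivAt_id x).add_const _
  have h8 := h6.unique h7
  have h9 := congrArg (fun T : (Fin n → ℝ) →L[ℝ] (Fin n → ℝ) => T b) h8
  simp only [ContinuousLinearMap.comp_apply, ContinuousLinearMap.add_apply,
    ContinuousLinearMap.smulRight_apply, ContinuousLinearMap.id_apply, hAb, ← add_smul, map_smul] at h9
  have h10 : lam + fderiv ℝ φ x b ≠ 0 := by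
    intro h0
    rw [h0, zero_smul] at h9
    exact hb h9.symm
  exact lt_of_le_of_ne hnn (Ne.symm h10)

/-- sign change of a function with nonzero derivative at a zero -/
theorem sign_change (u : ℝ → ℝ) (d : ℝ) (hd : d ≠ 0) (hu : HasDerivAt u d 0) (h0 : u 0 = 0)
    (ρ : ℝ) (hρ : 0 < ρ) : ∃ s : ℝ, 0 < s ∧ s < ρ ∧ u (-s) * u s < 0 := by
  have h1 := hasDerivAt_iff_isLittleO.mp hu
  have h2 := h1.def (c := |d| / 2) (by positivity)
  rw [Metric.eventually_nhds_iff] at h2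
  obtain ⟨ε, hε, h3⟩ := h2
  set s : ℝ := min (ε / 2) (ρ / 2) with hs
  have hs0 : 0 < s := lt_min (by positivity) (by positivity)
  have hsε : s < ε := (min_le_left _ _).trans_lt (by linarith)
  refine ⟨s, hs0, (min_le_right _ _).trans_lt (by linarith), ?_⟩
  have h4 := h3 (y := s) (by rw [Real.dist_eq, sub_zero, abs_of_pos hs0]; exact hsε)
  have h5 := h3 (y := -s) (by rw [Real.dist_eq, sub_zero, abs_neg, abs_of_pos hs0]; exact hsε)
  simp only [h0, sub_zero, smul_eq_mul, Real.norm_eq_abs, abs_neg, abs_of_pos hs0] at h4 h5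
  have h6 := abs_le.mp h4
  have h7 := abs_le.mp h5
  rcases lt_or_gt_of_ne hd with h | h
  · rw [abs_of_neg h] at h6 h7
    have e1 : u s < 0 := by nlinarith
    have e2 : 0 < u (-s) := by nlinarith
    exact mul_neg_of_pos_of_neg e2 e1
  · rw [abs_of_pos h] at h6 h7
    have e1 : 0 < u s := by nlinarith
    have e2 : u (-s) < 0 := by nlinarith
    exact mul_neg_of_neg_of_pos e2 e1

end Pool.Agent.Lib.MP_1e8d1a_an.LeafPerturb
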